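import Pool.Agent.Work.MP_c36330_co.SQ.Sub

set_option autoImplicit false

/-!
# SQ/BndA (M): a planar inequality at a vertex

Apply `sub3` to the graph `H` with `a ~_H b` iff `a ~ b` and one of: (i) `a = v` or `b = v`; (ii) `v ~ a` and `v ~ b`; (iii) `v ~ a` and
`b ∈ W`, or `v ~ b` and `a ∈ W`. (Relation (i): then the other end is a neighbour of `v`.) `U = {v} ∪ N ∪ W` with `N = {u | v ~ u}` has `1 + dg v + |W|` elements (disjoint union). Every edge of
`H` has an end in `{v} ∪ N`, and `v` has at least `3` `H`-neighbours, every `u ∈ N` is `H`-adjacent to `v`: `hni` holds (edge `v u`: another neighbour of `v`; edge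
`u u'` in `N`: `v` is a third vertex; edge `u w`: `v ≠ w`). Ordered adjacent pairs of `H`: `(v, u)` and `(u, v)`: `2 dg v`; inside `N`:
`∑_{w ∈ N} cn v w = tv v`; between `N` and `W`: `2 ∑_{w ∈ W} cn v w`. So `2 dg v + tv v + 2 ∑_W cn + 12 ≤ 6 (1 + dg v + |W|)`.
-/

namespace Pool.Agent.Work.MP_c36330_co.SQ

open Classical

variable {V : Type} [Fintype V]

private theorem ba_dbl (G : SimpleGraph V) (v : V) (W : Finset V) :
    ∑ a ∈ Finset.univ.filter (fun a => G.Adj v a), (W.filter fun b => G.Adj a b).card = ∑ w ∈ W, cn G v w := by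
  rw [Finset.sum_congr rfl fun a _ => Finset.card_filter (fun b => G.Adj a b) W, Finset.sum_comm]
  refine Finset.sum_congr rfl fun w _ => ?_
  rw [← Finset.card_filter, Finset.filter_filter, cn]
  congr 1
  ext u
  rw [Finset.mem_filter, Finset.mem_filter, G.adj_comm u w]

private theorem ba_pairs (H : SimpleGraph V) :
    (Finset.univ.filter fun p : V × V => H.Adj p.1 p.2).card
      = ∑ a, (Finset.univ.filter fun b => H.Adj a b).card := by
  rw [Finset.card_filter, Fintype.sum_prod_type]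
  exact Finset.sum_congr rfl fun v _ => by rw [Finset.card_filter]

private theorem ba_sum (v : V) (N W : Finset V) (hv : v ∉ N) (hvW : v ∉ W) (hNW : Disjoint N W) (h : V → ℕ) :
    h v + ∑ a ∈ N, h a + ∑ a ∈ W, h a ≤ ∑ a, h a := by
  have hd : Disjoint (insert v N) W := by
    rw [Finset.disjoint_insert_left]
    exact ⟨hvW, hNW⟩
  rw [← Finset.sum_insert hv, ← Finset.sum_union hd]
  exact Finset.sum_le_sum_of_subset (Finset.subset_univ _)

private theorem ba_card (v : V) (N W : Finset V) (hv : v ∉ N) (hvW : v ∉ W) (hNW : Disjoint N W) :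
    (insert v N ∪ W).card = N.card + 1 + W.card := by
  have hd : Disjoint (insert v N) W := by
    rw [Finset.disjoint_insert_left]
    exact ⟨hvW, hNW⟩
  rw [Finset.card_union_of_disjoint hd, Finset.card_insert_of_notMem hv]

theorem bndA (G : SimpleGraph V) (hG : SpherePlanar G) (v : V) (hd : 3 ≤ dg G v) (W : Finset V)
    (hW : ∀ w ∈ W, w ≠ v ∧ ¬ G.Adj v w) :
    tv G v + 2 * ∑ w ∈ W, cn G v w + 6 ≤ 4 * dg G v + 6 * W.card := by
  obtain ⟨H, hH⟩ : ∃ H : SimpleGraph V, ∀ a b, H.Adj a b ↔ (G.Adj a b ∧ (a = v ∨ b = v ∨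
      (G.Adj v a ∧ G.Adj v b) ∨ (G.Adj v a ∧ b ∈ W) ∨ (G.Adj v b ∧ a ∈ W))) :=
    ⟨{ Adj := fun a b => G.Adj a b ∧ (a = v ∨ b = v ∨
        (G.Adj v a ∧ G.Adj v b) ∨ (G.Adj v a ∧ b ∈ W) ∨ (G.Adj v b ∧ a ∈ W))
       symm := ⟨fun a b h => ⟨h.1.symm, by tauto⟩⟩
       loopless := ⟨fun a h => h.1.ne rfl⟩ }, fun a b => Iff.rfl⟩
  set N : Finset V := Finset.univ.filter (fun a => G.Adj v a) with hN
  have hmem : ∀ a, a ∈ N ↔ G.Adj v a := by
    intro a; rw [hN, Finset.mem_filter]; simp
  have hNc : N.card = dg G v := rfl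
  have hvN : v ∉ N := fun h => ((hmem v).1 h).ne rfl
  have hvW : v ∉ W := fun h => (hW v h).1 rfl
  have hNW : Disjoint N W := by
    rw [Finset.disjoint_left]
    intro a h1 h2
    exact (hW a h2).2 ((hmem a).1 h1)
  have hne2 : ∀ b, ∃ c, c ≠ b ∧ G.Adj v c := by
    intro b
    have h1 : 0 < (N.erase b).card := by
      have := Finset.pred_card_le_card_erase (s := N) (a := b)
      omega
    obtain ⟨c, hc⟩ := Finset.card_pos.1 h1
    rw [Finset.mem_erase, hmem] at hc
    exact ⟨c, hc⟩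
  have hHv : ∀ c, G.Adj v c → H.Adj v c := fun c hc => (hH v c).2 ⟨hc, Or.inl rfl⟩
  have key := sub3 G H hG (fun a b h => ((hH a b).1 h).1) (insert v N ∪ W) (by
      intro a b h
      rw [Finset.mem_union, Finset.mem_insert, hmem]
      obtain ⟨h1, h2⟩ := (hH a b).1 h
      rcases h2 with h2 | h2 | h2 | h2 | h2
      · exact Or.inl (Or.inl h2)
      · exact Or.inl (Or.inr (h2 ▸ h1.symm))
      · exact Or.inl (Or.inr h2.1)
      · exact Or.inl (Or.inr h2.1)
      · exact Or.inr h2.2) (by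
      obtain ⟨c, -, hc⟩ := hne2 v
      exact ⟨v, c, hHv c hc⟩) (by
      intro a b h
      obtain ⟨h1, h2⟩ := (hH a b).1 h
      by_cases ha : a = v
      · obtain ⟨c, hc, hvc⟩ := hne2 b
        left
        exact ⟨c, hc, ha ▸ hHv c hvc⟩
      · by_cases hb : b = v
        · obtain ⟨c, hc, hvc⟩ := hne2 a
          right
          exact ⟨c, hc, hb ▸ hHv c hvc⟩
        · rcases h2 with h2 | h2 | h2 | h2 | h2
          · exact absurd h2 ha
          · exact absurd h2 hb
          · exact Or.inl ⟨v, fun h => hb h.symm, (hHv a h2.1).symm⟩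
          · exact Or.inl ⟨v, fun h => hb h.symm, (hHv a h2.1).symm⟩
          · exact Or.inr ⟨v, fun h => ha h.symm, (hHv b h2.1).symm⟩)
  rw [ba_pairs, ba_card v N W hvN hvW hNW] at key
  have hsum := ba_sum v N W hvN hvW hNW (fun a => (Finset.univ.filter fun b => H.Adj a b).card)
  have k1 : dg G v ≤ (Finset.univ.filter fun b => H.Adj v b).card := by
    refine Finset.card_le_card fun b hb => ?_
    rw [Finset.mem_filter] at hb ⊢
    exact ⟨hb.1, hHv b hb.2⟩
  have k2 : ∀ a ∈ N, 1 + cn G v a + (W.filter fun b => G.Adj a b).card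
      ≤ (Finset.univ.filter fun b => H.Adj a b).card := by
    intro a ha
    rw [hmem] at ha
    have hsub : insert v (Finset.univ.filter fun b => G.Adj v b ∧ G.Adj a b) ∪ (W.filter fun b => G.Adj a b)
        ⊆ Finset.univ.filter fun b => H.Adj a b := by
      intro b hb
      rw [Finset.mem_union, Finset.mem_insert, Finset.mem_filter, Finset.mem_filter] at hb
      rw [Finset.mem_filter, hH]
      refine ⟨Finset.mem_univ _, ?_⟩
      rcases hb with (rfl | ⟨-, h1, h2⟩) | ⟨h1, h2⟩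
      · exact ⟨ha.symm, Or.inr (Or.inl rfl)⟩
      · exact ⟨h2, Or.inr (Or.inr (Or.inl ⟨ha, h1⟩))⟩
      · exact ⟨h2, Or.inr (Or.inr (Or.inr (Or.inl ⟨ha, h1⟩)))⟩
    have hle := Finset.card_le_card hsub
    rw [ba_card] at hle
    · rw [cn]
      omega
    · intro h
      exact (Finset.mem_filter.1 h).2.1.ne rfl
    · intro h
      exact hvW (Finset.mem_filter.1 h).1
    · rw [Finset.disjoint_left]
      intro b h1 h2
      exact (hW b (Finset.mem_filter.1 h2).1).2 (Finset.mem_filter.1 h1).2.1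
  have k3 : ∀ w ∈ W, cn G v w ≤ (Finset.univ.filter fun b => H.Adj w b).card := by
    intro w hw
    refine Finset.card_le_card fun b hb => ?_
    rw [Finset.mem_filter] at hb ⊢
    exact ⟨hb.1, (hH w b).2 ⟨hb.2.2, Or.inr (Or.inr (Or.inr (Or.inr ⟨hb.2.1, hw⟩)))⟩⟩
  have s2 := Finset.sum_le_sum k2
  have s3 := Finset.sum_le_sum k3
  rw [Finset.sum_add_distrib, Finset.sum_add_distrib, ba_dbl, Finset.sum_const, smul_eq_mul, mul_one] at s2
  have e : tv G v = ∑ a ∈ N, cn G v a := rfl
  omega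

end Pool.Agent.Work.MP_c36330_co.SQ
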