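import Pool.Agent.Work.MP_c36330_co.SQ.Sub

set_option autoImplicit false

/-!
# SQ/BndB (M): a bipartite planar inequality at a vertex

Apply `sub4` to the graph `H` with `a ~_H b` iff `a ~ b` and (`v ~ a` and (`b = v` or `b ∈ W`)) or (`v ~ b` and (`a = v` or `a ∈ W`)), `col a = (v ~ a)`,
`U = {v} ∪ N ∪ W`, `N = {u | v ~ u}`, of size `1 + dg v + |W|`. `hni`: as in `BndA` (`v` has at least 3 neighbours, every `u ∈ N` is adjacent to `v`).
Ordered adjacent pairs: `2 dg v + 2 ∑_{w ∈ W} cn v w`, so `2 dg v + 2 ∑ cn + 8 ≤ 4 (1 + dg v + |W|)`.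
-/

namespace Pool.Agent.Work.MP_c36330_co.SQ

open Classical

variable {V : Type} [Fintype V]

private theorem bb_dbl (G : SimpleGraph V) (v : V) (W : Finset V) :
    ∑ a ∈ Finset.univ.filter (fun a => G.Adj v a), (W.filter fun b => G.Adj a b).card = ∑ w ∈ W, cn G v w := by
  rw [Finset.sum_congr rfl fun a _ => Finset.card_filter (fun b => G.Adj a b) W, Finset.sum_comm]
  refine Finset.sum_congr rfl fun w _ => ?_
  rw [← Finset.card_filter, Finset.filter_filter, cn]
  congr 1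
  ext u
  rw [Finset.mem_filter, Finset.mem_filter, G.adj_comm u w]

private theorem bb_pairs (H : SimpleGraph V) :
    (Finset.univ.filter fun p : V × V => H.Adj p.1 p.2).card
      = ∑ a, (Finset.univ.filter fun b => H.Adj a b).card := by
  rw [Finset.card_filter, Fintype.sum_prod_type]
  exact Finset.sum_congr rfl fun v _ => by rw [Finset.card_filter]

private theorem bb_sum (v : V) (N W : Finset V) (hv : v ∉ N) (hvW : v ∉ W) (hNW : Disjoint N W) (h : V → ℕ) :
    h v + ∑ a ∈ N, h a + ∑ a ∈ W, h a ≤ ∑ a, h a := by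
  have hd : Disjoint (insert v N) W := by
    rw [Finset.disjoint_insert_left]
    exact ⟨hvW, hNW⟩
  rw [← Finset.sum_insert hv, ← Finset.sum_union hd]
  exact Finset.sum_le_sum_of_subset (Finset.subset_univ _)

private theorem bb_card (v : V) (N W : Finset V) (hv : v ∉ N) (hvW : v ∉ W) (hNW : Disjoint N W) :
    (insert v N ∪ W).card = N.card + 1 + W.card := by
  have hd : Disjoint (insert v N) W := by
    rw [Finset.disjoint_insert_left]
    exact ⟨hvW, hNW⟩
  rw [Finset.card_union_of_disjoint hd, Finset.card_insert_of_notMem hv]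

theorem bndB (G : SimpleGraph V) (hG : SpherePlanar G) (v : V) (hd : 3 ≤ dg G v) (W : Finset V)
    (hW : ∀ w ∈ W, w ≠ v ∧ ¬ G.Adj v w) :
    ∑ w ∈ W, cn G v w + 2 ≤ dg G v + 2 * W.card := by
  obtain ⟨H, hH⟩ : ∃ H : SimpleGraph V, ∀ a b, H.Adj a b ↔ (G.Adj a b ∧
      ((G.Adj v a ∧ (b = v ∨ b ∈ W)) ∨ (G.Adj v b ∧ (a = v ∨ a ∈ W)))) :=
    ⟨{ Adj := fun a b => G.Adj a b ∧
        ((G.Adj v a ∧ (b = v ∨ b ∈ W)) ∨ (G.Adj v b ∧ (a = v ∨ a ∈ W)))
       symm := ⟨fun a b h => ⟨h.1.symm, h.2.symm⟩⟩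
       loopless := ⟨fun a h => h.1.ne rfl⟩ }, fun a b => Iff.rfl⟩
  set N : Finset V := Finset.univ.filter (fun a => G.Adj v a) with hN
  have hmem : ∀ a, a ∈ N ↔ G.Adj v a := by
    intro a; rw [hN, Finset.mem_filter]; simp
  have hNc : N.card = dg G v := rfl
  have hvN : v ∉ N := fun h => ((hmem v).1 h).ne rfl
  have hvW : v ∉ W := fun h => (hW v h).1 rfl
  have hNW : Disjoint N W := by
    rw [Finset.disjoint_left]
    intro a h1 h2
    exact (hW a h2).2 ((hmem a).1 h1)
  have hne2 : ∀ b, ∃ c, c ≠ b ∧ G.Adj v c := by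
    intro b
    have h1 : 0 < (N.erase b).card := by
      have := Finset.pred_card_le_card_erase (s := N) (a := b)
      omega
    obtain ⟨c, hc⟩ := Finset.card_pos.1 h1
    rw [Finset.mem_erase, hmem] at hc
    exact ⟨c, hc⟩
  have hHv : ∀ c, G.Adj v c → H.Adj v c := fun c hc => (hH v c).2 ⟨hc, Or.inr ⟨hc, Or.inl rfl⟩⟩
  have key := sub4 G H hG (fun a b h => ((hH a b).1 h).1) (insert v N ∪ W) (by
      intro a b h
      rw [Finset.mem_union, Finset.mem_insert, hmem]
      obtain ⟨h1, h2⟩ := (hH a b).1 h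
      rcases h2 with h2 | ⟨h2, h3 | h3⟩
      · exact Or.inl (Or.inr h2.1)
      · exact Or.inl (Or.inl h3)
      · exact Or.inr h3) (by
      obtain ⟨c, -, hc⟩ := hne2 v
      exact ⟨v, c, hHv c hc⟩) (by
      intro a b h
      obtain ⟨h1, h2⟩ := (hH a b).1 h
      by_cases ha : a = v
      · obtain ⟨c, hc, hvc⟩ := hne2 b
        left
        exact ⟨c, hc, ha ▸ hHv c hvc⟩
      · by_cases hb : b = v
        · obtain ⟨c, hc, hvc⟩ := hne2 a
          right
          exact ⟨c, hc, hb ▸ hHv c hvc⟩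
        · rcases h2 with h2 | h2
          · exact Or.inl ⟨v, fun h => hb h.symm, (hHv a h2.1).symm⟩
          · exact Or.inr ⟨v, fun h => ha h.symm, (hHv b h2.1).symm⟩) (fun a => G.Adj v a) (by
      intro a b h
      obtain ⟨h1, h2⟩ := (hH a b).1 h
      rcases h2 with ⟨h2, h3 | h3⟩ | ⟨h2, h3 | h3⟩
      · refine ⟨fun _ h => ?_, fun _ => h2⟩
        exact (h3 ▸ h).ne rfl
      · exact ⟨fun _ => (hW b h3).2, fun _ => h2⟩
      · refine ⟨fun h => ?_, fun h => absurd h2 h⟩
        exact absurd rfl (h3 ▸ h).ne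
      · exact ⟨fun h => absurd h (hW a h3).2, fun h => absurd h2 h⟩)
  rw [bb_pairs, bb_card v N W hvN hvW hNW] at key
  have hsum := bb_sum v N W hvN hvW hNW (fun a => (Finset.univ.filter fun b => H.Adj a b).card)
  have k1 : dg G v ≤ (Finset.univ.filter fun b => H.Adj v b).card := by
    refine Finset.card_le_card fun b hb => ?_
    rw [Finset.mem_filter] at hb ⊢
    exact ⟨hb.1, hHv b hb.2⟩
  have k2 : ∀ a ∈ N, 1 + (W.filter fun b => G.Adj a b).card
      ≤ (Finset.univ.filter fun b => H.Adj a b).card := by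
    intro a ha
    rw [hmem] at ha
    have hsub : insert v (W.filter fun b => G.Adj a b) ⊆ Finset.univ.filter fun b => H.Adj a b := by
      intro b hb
      rw [Finset.mem_insert, Finset.mem_filter] at hb
      rw [Finset.mem_filter, hH]
      refine ⟨Finset.mem_univ _, ?_⟩
      rcases hb with rfl | ⟨h1, h2⟩
      · exact ⟨ha.symm, Or.inl ⟨ha, Or.inl rfl⟩⟩
      · exact ⟨h2, Or.inl ⟨ha, Or.inr h1⟩⟩
    have hle := Finset.card_le_card hsub
    rw [Finset.card_insert_of_notMem (fun h => hvW (Finset.mem_filter.1 h).1)] at hle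
    omega
  have k3 : ∀ w ∈ W, cn G v w ≤ (Finset.univ.filter fun b => H.Adj w b).card := by
    intro w hw
    refine Finset.card_le_card fun b hb => ?_
    rw [Finset.mem_filter] at hb ⊢
    exact ⟨hb.1, (hH w b).2 ⟨hb.2.2, Or.inr ⟨hb.2.1, Or.inr hw⟩⟩⟩
  have s2 := Finset.sum_le_sum k2
  have s3 := Finset.sum_le_sum k3
  rw [Finset.sum_add_distrib, bb_dbl, Finset.sum_const, smul_eq_mul, mul_one] at s2
  omega

end Pool.Agent.Work.MP_c36330_co.SQ
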