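import Pool.Agent.Work.MP_c36330_co.SQ.SumSq

set_option autoImplicit false

/-!
# SQ/Chord (M): the chords of the link of a vertex

Let `N = {u | v ~ u}`. `s` is injective on the finite set `N` with values in `N`, so it is a bijection of `N`; let `p` be its inverse
(`s (p u) = u`, `p u ∈ N`). Chord graph `K`: `u ~_K w` iff `v ~ u`, `v ~ w`, `u ~ w`, `s u ≠ w`, `s w ≠ u`. For
`w ∈ N` the common neighbours of `v` and `w` are the neighbours of `w` in `N`: they are `s w`, `p w` (both adjacent to `w`, different because `s (s w) ≠ w`)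
and the `K`-neighbours of `w`; so `cn v w = 2 + dg K w`; for `w ∉ N` `dg K w = 0`. Let `∑ dg K w = 2 x` (handshake:
`SimpleGraph.sum_degrees_eq_twice_card_edges` for `K`). Then `tv v = ∑_{w ∈ N} (2 + dg K w) = 2 dg v + 2 x`, and
`∑_{w ∈ N} cn^2 = 4 dg v + 4 * 2 x + ∑ (dg K w)^2 ≤ 4 dg v + 8 x + x (x + 1)` by `sum_sq_le`.
-/

namespace Pool.Agent.Work.MP_c36330_co.SQ

open Classical

variable {V : Type} [Fintype V]

private theorem ch_deg (K : SimpleGraph V) (w : V) : dg K w = K.degree w := by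
  rw [← SimpleGraph.card_neighborFinset_eq_degree, dg]
  congr 1
  ext u
  simp

theorem chord (G : SimpleGraph V) (v : V) (s : V → V) (hs : IsLink G v s) :
    ∃ x : ℕ, tv G v = 2 * dg G v + 2 * x ∧
      ∑ w ∈ Finset.univ.filter (fun w => G.Adj v w), cn G v w ^ 2 ≤ 4 * dg G v + 8 * x + x * (x + 1) := by
  obtain ⟨K, hK⟩ : ∃ K : SimpleGraph V, ∀ u w, K.Adj u w ↔
      (G.Adj v u ∧ G.Adj v w ∧ G.Adj u w ∧ s u ≠ w ∧ s w ≠ u) :=
    ⟨{ Adj := fun u w => G.Adj v u ∧ G.Adj v w ∧ G.Adj u w ∧ s u ≠ w ∧ s w ≠ u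
       symm := ⟨fun u w h => ⟨h.2.1, h.1, h.2.2.1.symm, h.2.2.2.2, h.2.2.2.1⟩⟩
       loopless := ⟨fun u h => h.2.2.1.ne rfl⟩ }, fun u w => Iff.rfl⟩
  set N : Finset V := Finset.univ.filter (fun w => G.Adj v w) with hN
  have hmem : ∀ w, w ∈ N ↔ G.Adj v w := by
    intro w; rw [hN, Finset.mem_filter]; simp
  have himg : N.image s = N := by
    refine Finset.eq_of_subset_of_card_le ?_ ?_
    · intro w hw
      obtain ⟨u, hu, rfl⟩ := Finset.mem_image.1 hw
      rw [hmem] at hu ⊢
      exact (hs u hu).1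
    · rw [Finset.card_image_of_injOn]
      intro a ha b hb hab
      have ha' := (hmem a).1 ha
      have hb' := (hmem b).1 hb
      exact (hs a ha').2.2.2 b hb' hab
  have hcn : ∀ w ∈ N, cn G v w = 2 + dg K w := by
    intro w hw
    have hw' := (hmem w).1 hw
    obtain ⟨p, hp, hpw⟩ := Finset.mem_image.1 (himg.symm ▸ hw)
    have hp' := (hmem p).1 hp
    obtain ⟨s1, s2, s3, -⟩ := hs w hw'
    obtain ⟨-, p2, -, p4⟩ := hs p hp'
    rw [hpw] at p2
    have hne : s w ≠ p := by
      intro h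
      apply s3
      rw [h, hpw]
    have e : (Finset.univ.filter fun u => G.Adj v u ∧ G.Adj w u)
        = {s w, p} ∪ Finset.univ.filter (fun u => K.Adj w u) := by
      ext u
      rw [Finset.mem_filter, Finset.mem_union, Finset.mem_insert, Finset.mem_singleton, Finset.mem_filter, hK]
      constructor
      · rintro ⟨-, h1, h2⟩
        by_cases a1 : u = s w
        · exact Or.inl (Or.inl a1)
        · by_cases a2 : s u = w
          · left; right
            exact (p4 u h1 (hpw.trans a2.symm)).symm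
          · right
            exact ⟨Finset.mem_univ _, hw', h1, h2, fun h => a1 h.symm, a2⟩
      · rintro ((rfl | rfl) | ⟨-, h1, h2, h3, -, -⟩)
        · exact ⟨Finset.mem_univ _, s1, s2⟩
        · exact ⟨Finset.mem_univ _, hp', p2.symm⟩
        · exact ⟨Finset.mem_univ _, h2, h3⟩
    rw [cn, e, Finset.card_union_of_disjoint, Finset.card_pair hne, dg]
    rw [Finset.disjoint_left]
    intro u hu hu'
    rw [Finset.mem_insert, Finset.mem_singleton] at hu
    obtain ⟨-, -, -, h1, h2⟩ := (hK w u).1 (Finset.mem_filter.1 hu').2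
    rcases hu with rfl | rfl
    · exact h1 rfl
    · exact h2 hpw
  have hzero : ∀ w, w ∉ N → dg K w = 0 := by
    intro w hw
    rw [dg, Finset.card_eq_zero, Finset.filter_eq_empty_iff]
    intro u _ hu
    exact hw ((hmem w).2 ((hK w u).1 hu).1)
  have hsum : ∑ w, dg K w = 2 * K.edgeFinset.card := by
    rw [← SimpleGraph.sum_degrees_eq_twice_card_edges]
    exact Finset.sum_congr rfl fun w _ => ch_deg K w
  have hsumN : ∑ w ∈ N, dg K w = 2 * K.edgeFinset.card := by
    rw [← hsum]
    exact Finset.sum_subset (Finset.subset_univ _) fun w _ hw => hzero w hw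
  have hsq := sum_sq_le K K.edgeFinset.card hsum
  have hsqN : ∑ w ∈ N, dg K w ^ 2 ≤ K.edgeFinset.card * (K.edgeFinset.card + 1) :=
    le_trans (Finset.sum_le_sum_of_subset (Finset.subset_univ _)) hsq
  have hcardN : N.card = dg G v := rfl
  refine ⟨K.edgeFinset.card, ?_, ?_⟩
  · rw [tv, Finset.sum_congr rfl hcn, Finset.sum_add_distrib, hsumN, Finset.sum_const, smul_eq_mul, hcardN]
    ring
  · have e1 : ∑ w ∈ N, cn G v w ^ 2 = ∑ w ∈ N, (4 + 4 * dg K w + dg K w ^ 2) := by
      refine Finset.sum_congr rfl fun w hw => ?_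
      rw [hcn w hw]
      ring
    rw [e1, Finset.sum_add_distrib, Finset.sum_add_distrib, ← Finset.mul_sum, hsumN, Finset.sum_const,
      smul_eq_mul, hcardN]
    omega

end Pool.Agent.Work.MP_c36330_co.SQ
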