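import Mathlib
import Pool.Agent.Work.MP_85d607_co.Defs

set_option autoImplicit false

/-!
# Definitions of the board SQ (fixed file): square energies of maximal planar graphs

Rotation systems (`Hopper.Rotation`), the number of cycles of a permutation (`Hopper.ncyc`) and the number
of edges (`Hopper.nedges`) are those of `Pool/Agent/Work/MP_85d607_co/Defs.lean`.
-/

namespace Pool.Agent.Work.MP_c36330_co.SQ

open Classical

/-- `G` is connected and it has a rotation system on the sphere (Euler's formula `V - E + F = 2`, Heffter and
Edmonds): `G` is a connected planar graph with at least two vertices. -/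
def SpherePlanar {V : Type} [Fintype V] (G : SimpleGraph V) : Prop :=
  G.Connected ∧ ∃ R : Hopper.Rotation G, Fintype.card V + Hopper.ncyc R.face = Hopper.nedges G + 2

/-- a maximal planar graph of order `n ≥ 3`: connected, planar, `3 n - 6` edges -/
def MaxPlanar {V : Type} [Fintype V] (G : SimpleGraph V) : Prop :=
  SpherePlanar G ∧ 3 ≤ Fintype.card V ∧ Hopper.nedges G + 6 = 3 * Fintype.card V

/-- degree -/
noncomputable def dg {V : Type} [Fintype V] (G : SimpleGraph V) (v : V) : ℕ :=
  (Finset.univ.filter fun u => G.Adj v u).card

/-- number of common neighbours (for `v = w` this is the degree) -/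
noncomputable def cn {V : Type} [Fintype V] (G : SimpleGraph V) (v w : V) : ℕ :=
  (Finset.univ.filter fun u => G.Adj v u ∧ G.Adj w u).card

/-- sum of `cn v w` over the neighbours `w` of `v`: twice the number of triangles at `v` -/
noncomputable def tv {V : Type} [Fintype V] (G : SimpleGraph V) (v : V) : ℕ :=
  ∑ w ∈ Finset.univ.filter (fun w => G.Adj v w), cn G v w

/-- sum of `cn v w` over all `w ≠ v` -/
noncomputable def cs {V : Type} [Fintype V] (G : SimpleGraph V) (v : V) : ℕ :=
  ∑ w ∈ Finset.univ.filter (fun w => w ≠ v), cn G v w

/-- sum of `cn v w ^ 2` over all `w ≠ v` -/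
noncomputable def cq {V : Type} [Fintype V] (G : SimpleGraph V) (v : V) : ℕ :=
  ∑ w ∈ Finset.univ.filter (fun w => w ≠ v), cn G v w ^ 2

/-- number of triangles -/
noncomputable def ntri {V : Type} [Fintype V] (G : SimpleGraph V) : ℕ := (G.cliqueFinset 3).card

/-- sum of the squares of the degrees -/
noncomputable def qd {V : Type} [Fintype V] (G : SimpleGraph V) : ℕ := ∑ v, dg G v ^ 2

/-- adjacency matrix over the reals -/
noncomputable def adjM {V : Type} (G : SimpleGraph V) : Matrix V V ℝ := fun u v => if G.Adj u v then 1 else 0

theorem adjM_herm {V : Type} (G : SimpleGraph V) : (adjM G).IsHermitian := by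
  ext u v
  simp [adjM, Matrix.conjTranspose_apply, G.adj_comm]

/-- the positive square energy: sum of the squares of the positive eigenvalues of the adjacency matrix -/
noncomputable def sPos {V : Type} [Fintype V] (G : SimpleGraph V) : ℝ :=
  ∑ i, (max ((adjM_herm G).eigenvalues i) 0) ^ 2

/-- the negative square energy: sum of the squares of the negative eigenvalues of the adjacency matrix -/
noncomputable def sNeg {V : Type} [Fintype V] (G : SimpleGraph V) : ℝ :=
  ∑ i, (max (-(adjM_herm G).eigenvalues i) 0) ^ 2

/-- `s` is the successor map on the link cycle of `v` -/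
def IsLink {V : Type} (G : SimpleGraph V) (v : V) (s : V → V) : Prop :=
  ∀ u, G.Adj v u → G.Adj v (s u) ∧ G.Adj u (s u) ∧ s (s u) ≠ u ∧ ∀ u', G.Adj v u' → s u = s u' → u = u'

end Pool.Agent.Work.MP_c36330_co.SQ
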