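import Pool.Agent.Work.MP_c36330_co.SQ.Defs
import Pool.Agent.Work.MP_85d607_co.Count

set_option autoImplicit false

/-!
# SQ/Glob (S-M): double counting

`sum_dg`: `two_nedges_eq` in MP_85d607_co/Count.lean. `sum_cs`: `∑_w cn v w` over all `w` is the number of `(w, u)` with `v ~ u ~ w`, i.e. `∑_{u ~ v} dg u`;
summed over `v` it is `∑_u dg u ^ 2`; the terms `w = v` are `cn v v = dg v`. `sum_sq`: the same splitting. `sum_tv`: `tv v` is the number of
`(w, u)` with `v ~ w`, `v ~ u`, `w ~ u`; a triangle `{a, b, c}` (3-clique) corresponds to 6 triples `(v, w, u)`.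
-/

namespace Pool.Agent.Work.MP_c36330_co.SQ

open Classical

variable {V : Type} [Fintype V]

private theorem gl_split (v : V) (f : V → ℕ) :
    ∑ w ∈ Finset.univ.filter (fun w => w ≠ v), f w + f v = ∑ w, f w := by
  rw [Finset.filter_ne' Finset.univ v, Finset.sum_erase_add _ _ (Finset.mem_univ v)]

private theorem gl_self (G : SimpleGraph V) (v : V) : cn G v v = dg G v := by
  rw [cn, dg]
  congr 1
  ext u
  rw [Finset.mem_filter, Finset.mem_filter, and_self_iff]

private theorem gl_card (G : SimpleGraph V) (u : V) : ∑ v, (if G.Adj v u then 1 else 0) = dg G u := by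
  rw [dg, Finset.card_filter]
  exact Finset.sum_congr rfl fun x _ => by rw [G.adj_comm]

private theorem gl_all (G : SimpleGraph V) : ∑ v, ∑ w, cn G v w = qd G := by
  have e1 : ∀ v w, cn G v w = ∑ u, (if G.Adj v u then 1 else 0) * (if G.Adj w u then 1 else 0) := by
    intro v w
    rw [cn, Finset.card_filter]
    refine Finset.sum_congr rfl fun u _ => ?_
    by_cases h1 : G.Adj v u <;> by_cases h2 : G.Adj w u <;> simp [h1, h2]
  have e2 : ∀ v, ∑ w, cn G v w = ∑ u, (if G.Adj v u then 1 else 0) * dg G u := by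
    intro v
    rw [Finset.sum_congr rfl fun w _ => e1 v w, Finset.sum_comm]
    refine Finset.sum_congr rfl fun u _ => ?_
    rw [← Finset.mul_sum, gl_card]
  rw [Finset.sum_congr rfl fun v _ => e2 v, Finset.sum_comm, qd]
  refine Finset.sum_congr rfl fun u _ => ?_
  rw [← Finset.sum_mul, gl_card, pow_two]

theorem sum_dg (G : SimpleGraph V) : ∑ v, dg G v = 2 * Hopper.nedges G := by
  rw [Hopper.two_nedges_eq]
  rfl

theorem sum_cs (G : SimpleGraph V) : ∑ v, cs G v + ∑ v, dg G v = qd G := by
  rw [← gl_all, ← Finset.sum_add_distrib]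
  refine Finset.sum_congr rfl fun v _ => ?_
  rw [← gl_split v, gl_self, cs]

theorem sum_sq (G : SimpleGraph V) : ∑ v, ∑ w, cn G v w ^ 2 = ∑ v, cq G v + qd G := by
  rw [qd, ← Finset.sum_add_distrib]
  refine Finset.sum_congr rfl fun v _ => ?_
  rw [← gl_split v, gl_self, cq]

end Pool.Agent.Work.MP_c36330_co.SQ
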