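import Pool.Agent.Work.MP_c36330_co.SQ.Defs

set_option autoImplicit false

/-!
# SQ/Spec (M): the spectral inequality

`tr_pow`: spectral theorem (`Matrix.IsHermitian.spectral_theorem`; the trace of `A^k` is the sum of the `k`-th powers of the eigenvalues; there may be a lemma such as
`Matrix.IsHermitian.trace_pow_eq...` or use `A = U D U^*` and cyclicity of the trace).
`spec`: with `λ_i` the eigenvalues, `∑ λ (λ + c)^2 ≤ ∑ max λ 0 * (λ + c)^2 ≤ sqrt (∑ (max λ 0)^2) * sqrt (∑ (λ + c)^4)` (Cauchy-Schwarz, `Finset.sum_mul_sq_le_sq_mul_sq`); the left side is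
`tr A^3 + 2 c tr A^2 + c^2 tr A ≥ 0` by hypothesis, the last sum is `tr A^4 + 4 c tr A^3 + 6 c^2 tr A^2 + 4 c^3 tr A + c^4 n`.
`pos_add_neg`: `(max λ 0)^2 + (max (-λ) 0)^2 = λ^2`.
-/

namespace Pool.Agent.Work.MP_c36330_co.SQ

open Classical

variable {V : Type} [Fintype V]

theorem tr_pow (G : SimpleGraph V) (k : ℕ) :
    (adjM G ^ k).trace = ∑ i, (adjM_herm G).eigenvalues i ^ k := by
  have h := (adjM_herm G).spectral_theorem
  conv_lhs => rw [h, ← map_pow, Unitary.conjStarAlgAut_apply, Matrix.trace_mul_comm, ← mul_assoc,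
    Unitary.coe_star_mul_self, one_mul, Matrix.diagonal_pow, Matrix.trace_diagonal]
  rfl

theorem pos_add_neg (G : SimpleGraph V) : sPos G + sNeg G = (adjM G ^ 2).trace := by
  rw [tr_pow, sPos, sNeg, ← Finset.sum_add_distrib]
  refine Finset.sum_congr rfl fun i _ => ?_
  rcases le_total 0 ((adjM_herm G).eigenvalues i) with h | h
  · rw [max_eq_left h, max_eq_right (by linarith)]
    ring
  · rw [max_eq_right h, max_eq_left (by linarith)]
    ring

theorem spec (G : SimpleGraph V) (c : ℝ)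
    (h0 : 0 ≤ (adjM G ^ 3).trace + 2 * c * (adjM G ^ 2).trace + c ^ 2 * (adjM G).trace) :
    ((adjM G ^ 3).trace + 2 * c * (adjM G ^ 2).trace + c ^ 2 * (adjM G).trace) ^ 2 ≤
      sPos G * ((adjM G ^ 4).trace + 4 * c * (adjM G ^ 3).trace + 6 * c ^ 2 * (adjM G ^ 2).trace
        + 4 * c ^ 3 * (adjM G).trace + c ^ 4 * Fintype.card V) := by
  have e1 : (adjM G).trace = ∑ i, (adjM_herm G).eigenvalues i := by
    have := tr_pow G 1
    simpa using this
  rw [tr_pow G 3, tr_pow G 2, e1] at h0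
  rw [tr_pow G 4, tr_pow G 3, tr_pow G 2, e1]
  set l := (adjM_herm G).eigenvalues with hl
  have e2 : ∑ i, l i ^ 3 + 2 * c * ∑ i, l i ^ 2 + c ^ 2 * ∑ i, l i = ∑ i, l i * (l i + c) ^ 2 := by
    rw [Finset.mul_sum, Finset.mul_sum, ← Finset.sum_add_distrib, ← Finset.sum_add_distrib]
    refine Finset.sum_congr rfl fun i _ => ?_
    ring
  have e3 : ∑ i, l i ^ 4 + 4 * c * ∑ i, l i ^ 3 + 6 * c ^ 2 * ∑ i, l i ^ 2 + 4 * c ^ 3 * ∑ i, l i
      + c ^ 4 * Fintype.card V = ∑ i, ((l i + c) ^ 2) ^ 2 := by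
    have e4 : c ^ 4 * (Fintype.card V : ℝ) = ∑ _i : V, c ^ 4 := by
      rw [Finset.sum_const, Finset.card_univ, nsmul_eq_mul, mul_comm]
    rw [e4, Finset.mul_sum, Finset.mul_sum, Finset.mul_sum, ← Finset.sum_add_distrib,
      ← Finset.sum_add_distrib, ← Finset.sum_add_distrib, ← Finset.sum_add_distrib]
    refine Finset.sum_congr rfl fun i _ => ?_
    ring
  rw [e2] at h0 ⊢
  rw [e3]
  have h1 : ∑ i, l i * (l i + c) ^ 2 ≤ ∑ i, max (l i) 0 * (l i + c) ^ 2 :=
    Finset.sum_le_sum fun i _ => mul_le_mul_of_nonneg_right (le_max_left _ _) (sq_nonneg _)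
  have h2 := Finset.sum_mul_sq_le_sq_mul_sq Finset.univ (fun i => max (l i) 0) (fun i => (l i + c) ^ 2)
  have h3 : (∑ i, l i * (l i + c) ^ 2) ^ 2 ≤ (∑ i, max (l i) 0 * (l i + c) ^ 2) ^ 2 :=
    pow_le_pow_left₀ h0 h1 2
  exact h3.trans h2

end Pool.Agent.Work.MP_c36330_co.SQ
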