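import Pool.Agent.Work.MP_c36330_co.SQ.Trace
import Pool.Agent.Work.MP_c36330_co.SQ.Spec
import Pool.Agent.Work.MP_c36330_co.SQ.Glob

set_option autoImplicit false

/-!
# SQ/KThree (S-M): the triangle

A graph on 3 vertices with 3 edges is complete (`∑ dg = 6`, `dg ≤ 2`), `dg v = 2`, `cn v v = 2`, `cn v w = 1` for `v ≠ w`, `tv v = 2`. `spec` with `c = 1`: `tr A = 0`, `tr A^2 = 6`, `tr A^3 = 6`,
`tr A^4 = 3 * 4 + 6 = 18`: `18^2 ≤ s * (18 + 24 + 36 + 3) = 81 s`, so `s ≥ 4 ≥ 3`.
-/

namespace Pool.Agent.Work.MP_c36330_co.SQ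

open Classical

variable {V : Type} [Fintype V]

private theorem kt_adj (G : SimpleGraph V) (hn : Fintype.card V = 3) (hm : Hopper.nedges G = 3) (v w : V) :
    G.Adj v w ↔ v ≠ w := by
  have hle : ∀ v ∈ (Finset.univ : Finset V), dg G v ≤ 2 := by
    intro v _
    have hsub : (Finset.univ.filter fun u => G.Adj v u) ⊆ Finset.univ.erase v := by
      intro u hu
      rw [Finset.mem_erase]
      exact ⟨(Finset.mem_filter.1 hu).2.ne', Finset.mem_univ _⟩
    have := Finset.card_le_card hsub
    rw [Finset.card_erase_of_mem (Finset.mem_univ v), Finset.card_univ, hn] at this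
    exact this
  have hsum : ∑ v, dg G v = ∑ _v : V, 2 := by
    rw [sum_dg, hm, Finset.sum_const, Finset.card_univ, hn]
    rfl
  have hall := (Finset.sum_eq_sum_iff_of_le hle).1 hsum v (Finset.mem_univ v)
  have hsub : (Finset.univ.filter fun u => G.Adj v u) ⊆ Finset.univ.erase v := by
    intro u hu
    rw [Finset.mem_erase]
    exact ⟨(Finset.mem_filter.1 hu).2.ne', Finset.mem_univ _⟩
  have heq : (Finset.univ.filter fun u => G.Adj v u) = Finset.univ.erase v := by
    refine Finset.eq_of_subset_of_card_le hsub ?_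
    rw [Finset.card_erase_of_mem (Finset.mem_univ v), Finset.card_univ, hn]
    exact hall.ge
  constructor
  · exact fun h => h.ne
  · intro h
    have : w ∈ Finset.univ.filter fun u => G.Adj v u := by
      rw [heq, Finset.mem_erase]
      exact ⟨h.symm, Finset.mem_univ _⟩
    exact (Finset.mem_filter.1 this).2

theorem kthree (G : SimpleGraph V) (hn : Fintype.card V = 3) (hm : Hopper.nedges G = 3) : 4 ≤ sPos G := by
  have hadj := kt_adj G hn hm
  have c1 : ∀ v, cn G v v = 2 := by
    intro v
    have e : (Finset.univ.filter fun u => G.Adj v u ∧ G.Adj v u) = Finset.univ.erase v := by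
      ext u
      rw [Finset.mem_filter, Finset.mem_erase, hadj]
      simp [eq_comm]
    rw [cn, e, Finset.card_erase_of_mem (Finset.mem_univ v), Finset.card_univ, hn]
  have c2 : ∀ v w, v ≠ w → cn G v w = 1 := by
    intro v w hvw
    have e : (Finset.univ.filter fun u => G.Adj v u ∧ G.Adj w u) = (Finset.univ.erase v).erase w := by
      ext u
      rw [Finset.mem_filter, Finset.mem_erase, Finset.mem_erase, hadj, hadj]
      constructor
      · rintro ⟨h0, h1, h2⟩
        exact ⟨h2.symm, h1.symm, h0⟩
      · rintro ⟨h2, h1, h0⟩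
        exact ⟨h0, h1.symm, h2.symm⟩
    rw [cn, e, Finset.card_erase_of_mem, Finset.card_erase_of_mem (Finset.mem_univ v), Finset.card_univ, hn]
    rw [Finset.mem_erase]
    exact ⟨hvw.symm, Finset.mem_univ _⟩
  have hN : ∀ v, (Finset.univ.filter fun u => G.Adj v u) = Finset.univ.erase v := by
    intro v
    ext u
    rw [Finset.mem_filter, Finset.mem_erase, hadj]
    simp [eq_comm]
  have hd : ∀ v, dg G v = 2 := by
    intro v
    rw [dg, hN, Finset.card_erase_of_mem (Finset.mem_univ v), Finset.card_univ, hn]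
  have ht : ∀ v, tv G v = 2 := by
    intro v
    rw [tv, hN, Finset.sum_congr rfl (g := fun _ => 1), Finset.sum_const, smul_eq_mul,
      Finset.card_erase_of_mem (Finset.mem_univ v), Finset.card_univ, hn]
    intro w hw
    exact c2 v w (Finset.mem_erase.1 hw).1.symm
  have hq : ∀ v, ∑ w, cn G v w ^ 2 = 6 := by
    intro v
    rw [← Finset.sum_erase_add _ _ (Finset.mem_univ v), c1, Finset.sum_congr rfl (g := fun _ => 1),
      Finset.sum_const, smul_eq_mul, Finset.card_erase_of_mem (Finset.mem_univ v), Finset.card_univ, hn]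
    · norm_num
    · intro w hw
      rw [c2 v w (Finset.mem_erase.1 hw).1.symm, one_pow]
  have t1 := tr1 G
  have t2 := tr2 G
  have t3 := tr3 G
  have t4 := tr4 G
  rw [Finset.sum_congr rfl fun v _ => hd v, Finset.sum_const, Finset.card_univ, hn] at t2
  rw [Finset.sum_congr rfl fun v _ => ht v, Finset.sum_const, Finset.card_univ, hn] at t3
  rw [Finset.sum_congr rfl fun v _ => hq v, Finset.sum_const, Finset.card_univ, hn] at t4
  have key := spec G 1
  rw [t1, t2, t3, t4, hn] at key
  norm_num at key
  linarith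

end Pool.Agent.Work.MP_c36330_co.SQ
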