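import Pool.Agent.Work.MP_c36330_co.SQ.Tri

set_option autoImplicit false

/-!
# SQ/Link (M): the link cycles of the vertices

By `face_cube` all faces of the rotation `R` of `G` are triangles. For a dart `(v, u)` let `s v u = (R.next (v, u)).snd` (for
non-adjacent pairs any value). With `u' = s v u`: `face (u, v) = next (v, u) = (v, u')`, `face (v, u') = next (u', v) = (u', x)` for some `x` and
`face (u', x) = (x, _) = (u, v)` by `face_cube`, so `x = u`: `u' ~ u` and `next (u', v) = (u', u)`, `next (u, u') = (u, v)`.
`s v (s v u) ≠ u`: otherwise `next (v, u) = (v, u')`, `next (v, u') = (v, u)`; the statement above for both pairs gives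
`next (u', v) = (u', u)`, `next (u, u') = (u, v)` and `next (u, v) = (u, u')`, `next (u', u) = (u', v)`. So `next` restricted to the darts
at each of `v, u, u'` has a cycle of length 2, which by `R.cyclic` contains all darts at that vertex: `{v, u, u'}` is closed under adjacency, by connectedness it
is all of `V`, against `4 ≤ card V`. Injectivity: `next (v, u) = next (v, u')` implies `u = u'`.
-/

namespace Pool.Agent.Work.MP_c36330_co.SQ

open Classical

variable {V : Type} [Fintype V]

private theorem link_closed {V : Type} (G : SimpleGraph V) (hc : G.Connected) (P : V → Prop) (a : V)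
    (ha : P a) (hstep : ∀ x y, G.Adj x y → P x → P y) (x : V) : P x := by
  obtain ⟨p⟩ := hc.preconnected a x
  induction p with
  | nil => exact ha
  | cons h _ ih => exact ih (hstep _ _ h ha)

/-- if the rotation at a vertex has a cycle of length two, the vertex has only these two neighbours -/
private theorem link_two {V : Type} [Fintype V] (G : SimpleGraph V) (R : Hopper.Rotation G) (d e : G.Dart)
    (h1 : R.next d = e) (h2 : R.next e = d) (f : G.Dart) (hf : d.fst = f.fst) : f = d ∨ f = e := by
  have hs := R.cyclic d f hf
  obtain ⟨k, hk⟩ := hs.exists_nat_pow_eq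
  have key : ∀ k : ℕ, (R.next ^ k) d = d ∨ (R.next ^ k) d = e := by
    intro k
    induction k with
    | zero => left; rfl
    | succ k ih =>
      rw [pow_succ', Equiv.Perm.mul_apply]
      rcases ih with ih | ih
      · right; rw [ih, h1]
      · left; rw [ih, h2]
  rw [← hk]
  exact key k

theorem exists_link (G : SimpleGraph V) (hG : MaxPlanar G) (hn : 4 ≤ Fintype.card V) :
    ∃ s : V → V → V, ∀ v, IsLink G v (s v) := by
  obtain ⟨⟨hc, R, heul⟩, hn3, hm⟩ := hG
  have cube := face_cube G hc hn3 R heul hm
  let s : V → V → V := fun v u => if h : G.Adj v u then (R.next ⟨(v, u), h⟩).snd else u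
  have hs : ∀ v u (h : G.Adj v u), s v u = (R.next ⟨(v, u), h⟩).snd := by
    intro v u h
    exact dif_pos h
  have hadj : ∀ v u (_ : G.Adj v u), G.Adj v (s v u) := by
    intro v u h
    rw [hs v u h]
    have h1 := (R.next ⟨(v, u), h⟩).adj
    rw [R.fst_next] at h1
    exact h1
  have hnext : ∀ v u (h : G.Adj v u), R.next ⟨(v, u), h⟩ = ⟨(v, s v u), hadj v u h⟩ := by
    intro v u h
    apply SimpleGraph.Dart.ext
    refine Prod.ext ?_ ?_
    · exact R.fst_next _
    · exact (hs v u h).symm
  -- the triangle
  have htri : ∀ v u (h : G.Adj v u), s (s v u) v = u ∧ G.Adj u (s v u) ∧ s u (s v u) = v := by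
    intro v u h
    have hc1 := cube ⟨(u, v), h.symm⟩
    have f1 : R.face ⟨(u, v), h.symm⟩ = ⟨(v, s v u), hadj v u h⟩ := by
      rw [Hopper.Eul.face_apply]
      exact hnext v u h
    have h2 : G.Adj (s v u) v := (hadj v u h).symm
    have f2 : R.face ⟨(v, s v u), hadj v u h⟩ = ⟨(s v u, s (s v u) v), hadj _ _ h2⟩ := by
      rw [Hopper.Eul.face_apply]
      exact hnext (s v u) v h2
    have h3 : G.Adj (s (s v u) v) (s v u) := (hadj _ _ h2).symm
    have f3 : R.face ⟨(s v u, s (s v u) v), hadj _ _ h2⟩
        = ⟨(s (s v u) v, s (s (s v u) v) (s v u)), hadj _ _ h3⟩ := by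
      rw [Hopper.Eul.face_apply]
      exact hnext _ _ h3
    rw [f1, f2, f3] at hc1
    have e1 : s (s v u) v = u := congrArg (fun d : G.Dart => d.fst) hc1
    have e2 : s (s (s v u) v) (s v u) = v := congrArg (fun d : G.Dart => d.snd) hc1
    rw [e1] at e2
    refine ⟨e1, ?_, e2⟩
    rw [e1] at h3
    exact h3
  refine ⟨s, fun v u h => ⟨hadj v u h, (htri v u h).2.1, ?_, ?_⟩⟩
  · intro hss
    -- a vertex of degree two
    set w := s v u with hw
    have hvw : G.Adj v w := hadj v u h
    have huw : G.Adj u w := (htri v u h).2.1
    obtain ⟨a1, -, a3⟩ := htri v u h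
    obtain ⟨b1, -, b3⟩ := htri v w hvw
    rw [← hw] at a1 a3
    rw [hss] at b1 b3
    -- s w v = u, s u w = v, s u v = w, s w u = v
    have hall : ∀ x, x = v ∨ x = u ∨ x = w := by
      refine link_closed G hc (fun x => x = v ∨ x = u ∨ x = w) v (Or.inl rfl) ?_
      rintro x y hxy (rfl | rfl | rfl)
      · have := link_two G R ⟨(x, u), h⟩ ⟨(x, w), hvw⟩ (hnext x u h)
          ((hnext x w hvw).trans (by apply SimpleGraph.Dart.ext; exact Prod.ext rfl hss)) ⟨(x, y), hxy⟩ rfl
        rcases this with e | e
        · right; left; exact congrArg (fun d : G.Dart => d.snd) e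
        · right; right; exact congrArg (fun d : G.Dart => d.snd) e
      · have := link_two G R ⟨(x, w), huw⟩ ⟨(x, v), h.symm⟩
          ((hnext x w huw).trans (by apply SimpleGraph.Dart.ext; exact Prod.ext rfl a3))
          ((hnext x v h.symm).trans (by apply SimpleGraph.Dart.ext; exact Prod.ext rfl b1)) ⟨(x, y), hxy⟩ rfl
        rcases this with e | e
        · right; right; exact congrArg (fun d : G.Dart => d.snd) e
        · left; exact congrArg (fun d : G.Dart => d.snd) e
      · have := link_two G R ⟨(w, v), hvw.symm⟩ ⟨(w, u), huw.symm⟩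
          ((hnext w v hvw.symm).trans (by apply SimpleGraph.Dart.ext; exact Prod.ext rfl a1))
          ((hnext w u huw.symm).trans (by apply SimpleGraph.Dart.ext; exact Prod.ext rfl b3)) ⟨(w, y), hxy⟩ rfl
        rcases this with e | e
        · left; exact congrArg (fun d : G.Dart => d.snd) e
        · right; left; exact congrArg (fun d : G.Dart => d.snd) e
    have hle : Fintype.card V ≤ 3 := by
      rw [← Finset.card_univ]
      refine (Finset.card_le_card (t := {v, u, w}) fun x _ => ?_).trans Finset.card_le_three
      rw [Finset.mem_insert, Finset.mem_insert, Finset.mem_singleton]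
      exact hall x
    omega
  · intro u' h' he
    have e1 := hnext v u h
    have e2 := hnext v u' h'
    have e3 : R.next ⟨(v, u), h⟩ = R.next ⟨(v, u'), h'⟩ := by
      rw [e1, e2]
      apply SimpleGraph.Dart.ext
      exact Prod.ext rfl he
    have e4 := R.next.injective e3
    exact congrArg (fun d : G.Dart => d.snd) e4

/-- every vertex has degree at least 3: a vertex has a neighbour `u` (connected), and `u, s u, s (s u)` are distinct -/
theorem three_le_dg (G : SimpleGraph V) (hc : G.Connected) (hn : 2 ≤ Fintype.card V) (v : V) (s : V → V)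
    (hs : IsLink G v s) : 3 ≤ dg G v := by
  obtain ⟨u, hu⟩ : ∃ u, G.Adj v u := by
    by_contra hno
    push Not at hno
    have hall := link_closed G hc (fun x => x = v) v rfl (by
      rintro x y hxy rfl
      exact absurd hxy (hno y))
    have : Fintype.card V ≤ 1 := Fintype.card_le_one_iff.2 fun a b => (hall a).trans (hall b).symm
    omega
  obtain ⟨h1, h2, h3, -⟩ := hs u hu
  obtain ⟨k1, k2, -, -⟩ := hs (s u) h1
  have hsub : ({u, s u, s (s u)} : Finset V) ⊆ Finset.univ.filter fun w => G.Adj v w := by
    intro x hx
    rw [Finset.mem_insert, Finset.mem_insert, Finset.mem_singleton] at hx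
    rw [Finset.mem_filter]
    refine ⟨Finset.mem_univ _, ?_⟩
    rcases hx with rfl | rfl | rfl
    · exact hu
    · exact h1
    · exact k1
  have hcard : ({u, s u, s (s u)} : Finset V).card = 3 := by
    rw [Finset.card_insert_of_notMem, Finset.card_insert_of_notMem, Finset.card_singleton]
    · rw [Finset.mem_singleton]
      exact k2.ne
    · rw [Finset.mem_insert, Finset.mem_singleton]
      rintro (h | h)
      · exact h2.ne h
      · exact h3 h.symm
  rw [dg, ← hcard]
  exact Finset.card_le_card hsub

end Pool.Agent.Work.MP_c36330_co.SQ
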