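import Pool.Agent.Work.MP_c36330_co.SQ.Defs

set_option autoImplicit false

/-!
# SQ/Local (M): the two inequalities at a vertex

Pure counting. Let `d = dg v`, `N = {w | v ~ w}`, `M = {w | w ≠ v, not v ~ w}`, `W = {w ∈ M | 3 ≤ cn v w}`, `c_w = cn v w`. `{w ≠ v} = N ∪ M` disjoint (`v` is not in `N`), `|N| = d`,
`|M| + d + 1 = card V`. `tv v = 2 d + 2 x` (`hx`). `hA` with `W = ∅`: `x + 3 ≤ d`.
Put `a_w = c_w - 2 ≥ 1` for `w ∈ W`. `hA`: `∑_W (a_w - 1) ≤ d - 3 - x`; `hB`: `∑_W a_w ≤ d - 2`.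

`local2`: `cs v = ∑_N c + ∑_M c ≤ tv v + ∑_M (2 + [w ∈ W] a_w) ≤ tv v + 2 (card V - 1 - d) + d - 2`.

`local1`: for `w ∈ M`: `c^2 ≤ 2 c + [w ∈ W] c (c - 2)` (for `c ≤ 2` `c^2 ≤ 2 c`), and `∑_M c = cs v - tv v`. For `w ∈ W`: `c (c - 2) = a (a + 2) = a (a - 1) + 3 a` and
`a_w - 1 ≤ ∑_W (a - 1) ≤ d - 3 - x`, so `∑_W a (a - 1) ≤ (d - 2 - x) ∑_W (a - 1) ≤ (d - 2 - x) (d - 3 - x)`, `3 ∑_W a ≤ 3 (d - 2)`. Hence, over the integers,
`cq v ≤ 4 d + 8 x + x (x + 1) + 2 (cs v - 2 d - 2 x) + (d - 2 - x) (d - 3 - x) + 3 (d - 2)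
= 2 cs v + d^2 - 2 d + 2 x^2 - (2 d - 10) x ≤ 2 cs v + d^2 - 2 d + 4 x` (because `x ≤ d - 3`), and `4 x = 2 tv v - 4 d`.
-/

namespace Pool.Agent.Work.MP_c36330_co.SQ

open Classical

variable {V : Type} [Fintype V]

private theorem lo_split (G : SimpleGraph V) (v : V) (f : V → ℕ) :
    ∑ w ∈ Finset.univ.filter (fun w => w ≠ v), f w =
      ∑ w ∈ Finset.univ.filter (fun w => G.Adj v w), f w +
        ∑ w ∈ Finset.univ.filter (fun w => w ≠ v ∧ ¬ G.Adj v w), f w := by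
  rw [← Finset.sum_union]
  · refine Finset.sum_congr ?_ fun _ _ => rfl
    ext w
    rw [Finset.mem_filter, Finset.mem_union, Finset.mem_filter, Finset.mem_filter]
    constructor
    · rintro ⟨h1, h2⟩
      by_cases h : G.Adj v w
      · exact Or.inl ⟨h1, h⟩
      · exact Or.inr ⟨h1, h2, h⟩
    · rintro (⟨h1, h2⟩ | ⟨h1, h2, -⟩)
      · exact ⟨h1, h2.ne'⟩
      · exact ⟨h1, h2⟩
  · rw [Finset.disjoint_left]
    intro w h1 h2
    exact (Finset.mem_filter.1 h2).2.2 (Finset.mem_filter.1 h1).2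

theorem local1 (G : SimpleGraph V) (v : V) (x : ℕ) (hx : tv G v = 2 * dg G v + 2 * x)
    (hN : ∑ w ∈ Finset.univ.filter (fun w => G.Adj v w), cn G v w ^ 2 ≤ 4 * dg G v + 8 * x + x * (x + 1))
    (hA : ∀ W : Finset V, (∀ w ∈ W, w ≠ v ∧ ¬ G.Adj v w) →
      tv G v + 2 * ∑ w ∈ W, cn G v w + 6 ≤ 4 * dg G v + 6 * W.card)
    (hB : ∀ W : Finset V, (∀ w ∈ W, w ≠ v ∧ ¬ G.Adj v w) →
      ∑ w ∈ W, cn G v w + 2 ≤ dg G v + 2 * W.card) :
    cq G v + 6 * dg G v ≤ 2 * cs G v + dg G v ^ 2 + 2 * tv G v := by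
  set M : Finset V := Finset.univ.filter (fun w => w ≠ v ∧ ¬ G.Adj v w) with hM
  set W : Finset V := M.filter (fun w => 3 ≤ cn G v w) with hW
  have hWM : ∀ w ∈ W, w ≠ v ∧ ¬ G.Adj v w := fun w hw =>
    (Finset.mem_filter.1 (Finset.mem_filter.1 hw).1).2
  have hW3 : ∀ w ∈ W, 3 ≤ cn G v w := fun w hw => (Finset.mem_filter.1 hw).2
  have ecs : cs G v = tv G v + ∑ w ∈ M, cn G v w := lo_split G v _
  have ecq : cq G v = ∑ w ∈ Finset.univ.filter (fun w => G.Adj v w), cn G v w ^ 2 + ∑ w ∈ M, cn G v w ^ 2 :=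
    lo_split G v _
  have a1 := hA W hWM
  have b1 := hB W hWM
  -- integers
  have a2 : ∑ w ∈ W, ((cn G v w : ℤ) - 3) ≤ (dg G v : ℤ) - 3 - x := by
    rw [Finset.sum_sub_distrib, Finset.sum_const, nsmul_eq_mul]
    have : (∑ w ∈ W, (cn G v w : ℤ)) = ((∑ w ∈ W, cn G v w : ℕ) : ℤ) := by push_cast; rfl
    rw [this]
    push_cast [← Nat.cast_sum]
    omega
  have b2 : ∑ w ∈ W, ((cn G v w : ℤ) - 2) ≤ (dg G v : ℤ) - 2 := by
    rw [Finset.sum_sub_distrib, Finset.sum_const, nsmul_eq_mul]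
    have : (∑ w ∈ W, (cn G v w : ℤ)) = ((∑ w ∈ W, cn G v w : ℕ) : ℤ) := by push_cast; rfl
    rw [this]
    push_cast [← Nat.cast_sum]
    omega
  set r : ℤ := (dg G v : ℤ) - 3 - x with hr
  have hnn : ∀ w ∈ W, 0 ≤ (cn G v w : ℤ) - 3 := fun w hw => by have := hW3 w hw; omega
  have hr0 : 0 ≤ r := le_trans (Finset.sum_nonneg hnn) a2
  have hle : ∀ w ∈ W, (cn G v w : ℤ) - 3 ≤ r := fun w hw =>
    le_trans (Finset.single_le_sum hnn hw) a2
  have c1 : ∑ w ∈ W, (cn G v w : ℤ) * ((cn G v w : ℤ) - 2) ≤ (r + 1) * r + 3 * ((dg G v : ℤ) - 2) := by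
    have h1 : ∀ w ∈ W, (cn G v w : ℤ) * ((cn G v w : ℤ) - 2)
        ≤ (r + 1) * ((cn G v w : ℤ) - 3) + 3 * ((cn G v w : ℤ) - 2) := by
      intro w hw
      have h2 := hnn w hw
      have h3 := hle w hw
      nlinarith
    refine le_trans (Finset.sum_le_sum h1) ?_
    rw [Finset.sum_add_distrib, ← Finset.mul_sum, ← Finset.mul_sum]
    have h4 := mul_le_mul_of_nonneg_left a2 (by linarith : (0 : ℤ) ≤ r + 1)
    linarith
  have c2 : (∑ w ∈ M, (cn G v w : ℤ) ^ 2) ≤ 2 * ∑ w ∈ M, (cn G v w : ℤ)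
      + ∑ w ∈ W, (cn G v w : ℤ) * ((cn G v w : ℤ) - 2) := by
    have e : ∑ w ∈ W, (cn G v w : ℤ) * ((cn G v w : ℤ) - 2)
        = ∑ w ∈ M, if 3 ≤ cn G v w then (cn G v w : ℤ) * ((cn G v w : ℤ) - 2) else 0 := Finset.sum_filter _ _
    rw [e, Finset.mul_sum, ← Finset.sum_add_distrib]
    refine Finset.sum_le_sum fun w _ => ?_
    by_cases h3 : 3 ≤ cn G v w
    · rw [if_pos h3]
      nlinarith
    · rw [if_neg h3]
      have : cn G v w = 0 ∨ cn G v w = 1 ∨ cn G v w = 2 := by omega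
      rcases this with h | h | h <;> rw [h] <;> norm_num
  have d1 : ((∑ w ∈ M, cn G v w ^ 2 : ℕ) : ℤ) = ∑ w ∈ M, (cn G v w : ℤ) ^ 2 := by push_cast; rfl
  have d2 : ((∑ w ∈ M, cn G v w : ℕ) : ℤ) = ∑ w ∈ M, (cn G v w : ℤ) := by push_cast; rfl
  rw [← d1, ← d2] at c2
  have hN' : ((∑ w ∈ Finset.univ.filter (fun w => G.Adj v w), cn G v w ^ 2 : ℕ) : ℤ)
      ≤ 4 * dg G v + 8 * x + x * (x + 1) := by exact_mod_cast hN
  zify
  rw [ecs, ecq, hx]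
  push_cast
  push_cast at c2 hN'
  have hx0 : (0 : ℤ) ≤ x := Int.natCast_nonneg x
  have hxr := mul_nonneg hx0 hr0
  nlinarith

theorem local2 (G : SimpleGraph V) (v : V)
    (hB : ∀ W : Finset V, (∀ w ∈ W, w ≠ v ∧ ¬ G.Adj v w) →
      ∑ w ∈ W, cn G v w + 2 ≤ dg G v + 2 * W.card) :
    cs G v + dg G v + 4 ≤ 2 * Fintype.card V + tv G v := by
  set M : Finset V := Finset.univ.filter (fun w => w ≠ v ∧ ¬ G.Adj v w) with hM
  set W : Finset V := M.filter (fun w => 3 ≤ cn G v w) with hW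
  have hWM : ∀ w ∈ W, w ≠ v ∧ ¬ G.Adj v w := fun w hw =>
    (Finset.mem_filter.1 (Finset.mem_filter.1 hw).1).2
  have ecs : cs G v = tv G v + ∑ w ∈ M, cn G v w := lo_split G v _
  have ecard : ∑ w ∈ Finset.univ.filter (fun w => w ≠ v), 1 =
      ∑ w ∈ Finset.univ.filter (fun w => G.Adj v w), 1 + ∑ w ∈ M, 1 := lo_split G v (fun _ => 1)
  rw [Finset.sum_const, Finset.sum_const, Finset.sum_const, smul_eq_mul, smul_eq_mul, smul_eq_mul, mul_one,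
    mul_one, mul_one] at ecard
  have e1 : (Finset.univ.filter (fun w : V => w ≠ v)).card + 1 = Fintype.card V := by
    rw [Finset.filter_ne' Finset.univ v, Finset.card_erase_add_one (Finset.mem_univ _), Finset.card_univ]
  have e2 : (Finset.univ.filter (fun w => G.Adj v w)).card = dg G v := rfl
  have b1 := hB W hWM
  have c1 : ∑ w ∈ M, cn G v w + 2 * W.card ≤ 2 * M.card + ∑ w ∈ W, cn G v w := by
    have h1 : ∑ w ∈ M, cn G v w = ∑ w ∈ W, cn G v w + ∑ w ∈ M.filter (fun w => ¬ 3 ≤ cn G v w), cn G v w :=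
      (Finset.sum_filter_add_sum_filter_not M _ _).symm
    have h2 : M.card = W.card + (M.filter (fun w => ¬ 3 ≤ cn G v w)).card :=
      (Finset.card_filter_add_card_filter_not _).symm
    have h3 : ∑ w ∈ M.filter (fun w => ¬ 3 ≤ cn G v w), cn G v w
        ≤ (M.filter (fun w => ¬ 3 ≤ cn G v w)).card * 2 := by
      rw [← smul_eq_mul]
      refine Finset.sum_le_card_nsmul _ _ 2 fun w hw => ?_
      have := (Finset.mem_filter.1 hw).2
      omega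
    omega
  omega

end Pool.Agent.Work.MP_c36330_co.SQ
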