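import Pool.Agent.Work.MP_c36330_co.SQ.Defs

set_option autoImplicit false

/-!
# SQ/Num (S-M): numbers

`N = n - 2`, `t = 2 N + τ`. `num_a`: `36 (t + 6 N)^2 = 36 (8 N + τ)^2 ≥ 3 N (4 q + 84 t + 357 N + 162)` because
`36 (64 N^2 + 16 N τ + τ^2) - 3 N (243 N + 108 τ - 162 + 84 (2 N + τ) + 357 N + 162) = 36 τ^2 + 576 N τ - 576 N τ = 36 τ^2 ≥ 0`; the factor `4 q + 84 t + 357 N + 162` is positive.
`num_b`: `∑ (d - 3) (D - d) ≥ 0`.
-/

namespace Pool.Agent.Work.MP_c36330_co.SQ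

open Classical

theorem num_a (N t q s : ℝ) (hN : 1 ≤ N) (ht : 2 * N ≤ t) (hq : 0 ≤ q)
    (h : 36 * (t + 6 * N) ^ 2 ≤ s * (4 * q + 84 * t + 357 * N + 162))
    (hc : 4 * q ≤ 243 * N + 108 * (t - 2 * N) - 162) : 3 * N ≤ s := by
  by_contra hs
  push Not at hs
  have hden : 0 < 4 * q + 84 * t + 357 * N + 162 := by linarith
  have h1 : 4 * q + 84 * t + 357 * N + 162 ≤ 768 * N + 192 * (t - 2 * N) := by linarith
  have h2 := mul_lt_mul_of_pos_right hs hden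
  have h3 : 3 * N * (4 * q + 84 * t + 357 * N + 162) ≤ 3 * N * (768 * N + 192 * (t - 2 * N)) :=
    mul_le_mul_of_nonneg_left h1 (by linarith)
  nlinarith [sq_nonneg (t - 2 * N)]

theorem num_b {V : Type} [Fintype V] (G : SimpleGraph V) (D : ℕ) (h3 : ∀ v, 3 ≤ dg G v) (hD : ∀ v, dg G v ≤ D) :
    qd G + 3 * D * Fintype.card V ≤ (D + 3) * ∑ v, dg G v := by
  have e : 3 * D * Fintype.card V = ∑ _v : V, 3 * D := by
    rw [Finset.sum_const, Finset.card_univ, smul_eq_mul, mul_comm]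
  rw [e, qd, ← Finset.sum_add_distrib, Finset.mul_sum]
  refine Finset.sum_le_sum fun v _ => ?_
  obtain ⟨k, hk⟩ := Nat.exists_eq_add_of_le (h3 v)
  obtain ⟨l, hl⟩ := Nat.exists_eq_add_of_le (hD v)
  rw [hl, hk]
  nlinarith [Nat.zero_le (k * l)]

end Pool.Agent.Work.MP_c36330_co.SQ
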