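import Pool.Agent.Work.MP_c36330_co.SQ.Defs

set_option autoImplicit false

/-!
# SQ/SumTv (M): triangles

`∑_v tv v` is the number of triples `(v, w, u)` with `v ~ w`, `v ~ u`, `w ~ u`. The map `(v, w, u) ↦ {v, w, u}` to the 3-cliques (`SimpleGraph.cliqueFinset`, `SimpleGraph.is3Clique_iff`) has
fibres of size 6 (the 6 orderings of `{a, b, c}`): `Finset.card_eq_sum_card_fiberwise`, and the fibre over `{a, b, c}` is the explicit set of the six triples.
-/

namespace Pool.Agent.Work.MP_c36330_co.SQ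

open Classical

variable {V : Type} [Fintype V]

private theorem st_count (G : SimpleGraph V) : ∑ v, tv G v =
    (Finset.univ.filter fun p : V × V × V => G.Adj p.1 p.2.1 ∧ G.Adj p.1 p.2.2 ∧ G.Adj p.2.1 p.2.2).card := by
  rw [Finset.card_filter, Fintype.sum_prod_type]
  refine Finset.sum_congr rfl fun v _ => ?_
  rw [Fintype.sum_prod_type, tv, Finset.sum_filter]
  refine Finset.sum_congr rfl fun w _ => ?_
  by_cases h : G.Adj v w
  · rw [if_pos h, cn, Finset.card_filter]
    refine Finset.sum_congr rfl fun u _ => ?_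
    simp [h]
  · rw [if_neg h]
    simp [h]

private theorem st_fib (G : SimpleGraph V) (a b c : V) (hab : G.Adj a b) (hac : G.Adj a c) (hbc : G.Adj b c) :
    ((Finset.univ.filter fun p : V × V × V => G.Adj p.1 p.2.1 ∧ G.Adj p.1 p.2.2 ∧ G.Adj p.2.1 p.2.2).filter
      fun p => ({p.1, p.2.1, p.2.2} : Finset V) = {a, b, c}).card = 6 := by
  have e : (Finset.univ.filter fun p : V × V × V => G.Adj p.1 p.2.1 ∧ G.Adj p.1 p.2.2 ∧ G.Adj p.2.1 p.2.2).filter
      (fun p => ({p.1, p.2.1, p.2.2} : Finset V) = {a, b, c})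
      = {(a, b, c), (a, c, b), (b, a, c), (b, c, a), (c, a, b), (c, b, a)} := by
    ext ⟨x, y, z⟩
    rw [Finset.mem_filter, Finset.mem_filter]
    simp only [Finset.mem_univ, true_and, Finset.mem_insert, Finset.mem_singleton, Prod.mk.injEq]
    constructor
    · rintro ⟨⟨h1, h2, h3⟩, h⟩
      have hx : x ∈ ({a, b, c} : Finset V) := by rw [← h]; simp
      have hy : y ∈ ({a, b, c} : Finset V) := by rw [← h]; simp
      have hz : z ∈ ({a, b, c} : Finset V) := by rw [← h]; simp
      have n1 := h1.ne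
      have n2 := h2.ne
      have n3 := h3.ne
      simp only [Finset.mem_insert, Finset.mem_singleton] at hx hy hz
      rcases hx with rfl | rfl | rfl <;> rcases hy with rfl | rfl | rfl <;> rcases hz with rfl | rfl | rfl <;>
        simp_all
    · rintro (⟨rfl, rfl, rfl⟩ | ⟨rfl, rfl, rfl⟩ | ⟨rfl, rfl, rfl⟩ | ⟨rfl, rfl, rfl⟩ | ⟨rfl, rfl, rfl⟩ | ⟨rfl, rfl, rfl⟩)
      · exact ⟨⟨hab, hac, hbc⟩, rfl⟩
      · exact ⟨⟨hac, hab, hbc.symm⟩, by ext u; simp; tauto⟩
      · exact ⟨⟨hab.symm, hbc, hac⟩, by ext u; simp; tauto⟩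
      · exact ⟨⟨hbc, hab.symm, hac.symm⟩, by ext u; simp; tauto⟩
      · exact ⟨⟨hac.symm, hbc.symm, hab⟩, by ext u; simp; tauto⟩
      · exact ⟨⟨hbc.symm, hac.symm, hab.symm⟩, by ext u; simp; tauto⟩
  rw [e]
  have n1 := hab.ne
  have n2 := hac.ne
  have n3 := hbc.ne
  rw [Finset.card_insert_of_notMem, Finset.card_insert_of_notMem, Finset.card_insert_of_notMem,
    Finset.card_insert_of_notMem, Finset.card_insert_of_notMem, Finset.card_singleton] <;>
    simp [n1, n2, n3, n1.symm, n2.symm, n3.symm]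

theorem sum_tv (G : SimpleGraph V) : ∑ v, tv G v = 6 * ntri G := by
  rw [st_count, Finset.card_eq_sum_card_fiberwise (f := fun p : V × V × V => ({p.1, p.2.1, p.2.2} : Finset V))
    (t := G.cliqueFinset 3)]
  · rw [Finset.sum_congr rfl (g := fun _ => 6), Finset.sum_const, smul_eq_mul, mul_comm, ntri]
    intro s hs
    rw [SimpleGraph.mem_cliqueFinset_iff, SimpleGraph.is3Clique_iff] at hs
    obtain ⟨a, b, c, hab, hac, hbc, rfl⟩ := hs
    exact st_fib G a b c hab hac hbc
  · intro p hp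
    rw [Finset.mem_coe, Finset.mem_filter] at hp
    rw [Finset.mem_coe, SimpleGraph.mem_cliqueFinset_iff, SimpleGraph.is3Clique_iff]
    exact ⟨_, _, _, hp.2.1, hp.2.2.1, hp.2.2.2, rfl⟩

end Pool.Agent.Work.MP_c36330_co.SQ
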