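import Pool.Agent.Work.MP_c36330_co.SQ.Defs

set_option autoImplicit false

/-!
# SQ/Trace (M): traces of powers of the adjacency matrix

`(A * A) v w = cn v w` (`Matrix.mul_apply`, symmetry of adjacency), so `tr A = 0`, `tr (A * A) = ∑ cn v v = ∑ dg v`, `tr (A * A * A) = ∑_v ∑_w (A A) v w * A w v = ∑_v tv v`
and `tr (A A A A) = ∑_{v, w} (A A) v w * (A A) w v = ∑ cn^2`.
-/

namespace Pool.Agent.Work.MP_c36330_co.SQ

open Classical

variable {V : Type} [Fintype V]

private theorem tr_sq (G : SimpleGraph V) (v w : V) : (adjM G * adjM G) v w = (cn G v w : ℝ) := by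
  rw [Matrix.mul_apply, cn, Finset.card_filter]
  push_cast
  refine Finset.sum_congr rfl fun u _ => ?_
  by_cases h1 : G.Adj v u <;> by_cases h2 : G.Adj w u <;> simp [adjM, h1, h2, G.adj_comm u w]

private theorem tr_symm (G : SimpleGraph V) (v w : V) : cn G v w = cn G w v := by
  rw [cn, cn]
  congr 1
  ext u
  rw [Finset.mem_filter, Finset.mem_filter, and_comm (a := G.Adj v u)]

theorem tr1 (G : SimpleGraph V) : (adjM G).trace = 0 := by
  rw [Matrix.trace]
  refine Finset.sum_eq_zero fun v _ => ?_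
  simp [adjM, Matrix.diag]

theorem tr2 (G : SimpleGraph V) : (adjM G ^ 2).trace = ((∑ v, dg G v : ℕ) : ℝ) := by
  rw [pow_two, Matrix.trace]
  push_cast
  refine Finset.sum_congr rfl fun v _ => ?_
  rw [Matrix.diag, tr_sq, cn, dg]
  congr 2
  ext u
  rw [Finset.mem_filter, Finset.mem_filter, and_self_iff]

theorem tr3 (G : SimpleGraph V) : (adjM G ^ 3).trace = ((∑ v, tv G v : ℕ) : ℝ) := by
  rw [pow_succ, pow_two, Matrix.trace]
  push_cast
  refine Finset.sum_congr rfl fun v _ => ?_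
  rw [Matrix.diag, Matrix.mul_apply, tv, Finset.sum_filter]
  push_cast
  refine Finset.sum_congr rfl fun w _ => ?_
  rw [tr_sq]
  by_cases h : G.Adj v w
  · simp [adjM, h, h.symm]
  · have h' : ¬ G.Adj w v := fun h'' => h h''.symm
    simp [adjM, h, h']

theorem tr4 (G : SimpleGraph V) : (adjM G ^ 4).trace = ((∑ v, ∑ w, cn G v w ^ 2 : ℕ) : ℝ) := by
  have e : adjM G ^ 4 = (adjM G * adjM G) * (adjM G * adjM G) := by
    rw [show 4 = 2 + 2 from rfl, pow_add, pow_two]
  rw [e, Matrix.trace]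
  push_cast
  refine Finset.sum_congr rfl fun v _ => ?_
  rw [Matrix.diag, Matrix.mul_apply]
  refine Finset.sum_congr rfl fun w _ => ?_
  rw [tr_sq, tr_sq, tr_symm G w v, pow_two]

end Pool.Agent.Work.MP_c36330_co.SQ
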