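import Pool.Agent.Work.MP_c36330_co.SQ.Link
import Pool.Agent.Work.MP_c36330_co.SQ.Chord
import Pool.Agent.Work.MP_c36330_co.SQ.BndA
import Pool.Agent.Work.MP_c36330_co.SQ.BndB
import Pool.Agent.Work.MP_c36330_co.SQ.Local
import Pool.Agent.Work.MP_c36330_co.SQ.Glob
import Pool.Agent.Work.MP_c36330_co.SQ.SumTv
import Pool.Agent.Work.MP_c36330_co.SQ.Trace
import Pool.Agent.Work.MP_c36330_co.SQ.Spec
import Pool.Agent.Work.MP_c36330_co.SQ.Num
import Pool.Agent.Work.MP_c36330_co.SQ.KThree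

set_option autoImplicit false

/-!
# SQ/Main (M): assembly

Let `n = card V ≥ 4`, `N = n - 2`, `m = nedges = 3 N`, `t = ntri`, `q = qd`. `exists_link`, `three_le_dg`, `chord`, `bndA`, `bndB` give for every vertex the hypotheses of `local1`, `local2`.
Sum over the vertices: `∑ cq + 6 ∑ dg ≤ 2 ∑ cs + q + 2 ∑ tv`, with `∑ dg = 6 N`, `∑ cs = q - 6 N`, `∑ tv = 6 t`:
`∑∑ cn^2 = ∑ cq + q ≤ 4 q - 48 N + 12 t` (`sum4`). `∑ cs + ∑ dg + 4 n ≤ 2 n^2 + ∑ tv` gives `q + 4 n ≤ 2 n^2 + 6 t` (`sumq`).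
`tv v ≥ 2 dg v` (`chord`) gives `6 t ≥ 12 N` (`two_le`). `main_ineq`: `spec` with `c = 3`: `tr A = 0`, `tr A^2 = 6 N`, `tr A^3 = 6 t`: `(6 t + 36 N)^2 ≤ s (tr A^4 + 72 t + 324 N + 81 (N + 2))` and `tr A^4 ≤ 4 q - 48 N + 12 t` (`sPos ≥ 0`).
`q1_of`: `num_a` (for `n = 3`: `kthree`) and `sPos + sNeg = 6 N`.
-/

namespace Pool.Agent.Work.MP_c36330_co.SQ

open Classical

variable {V : Type} [Fintype V]

private theorem ma_local (G : SimpleGraph V) (hG : MaxPlanar G) (hn : 4 ≤ Fintype.card V) (v : V) :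
    3 ≤ dg G v ∧ 2 * dg G v ≤ tv G v ∧ cq G v + 6 * dg G v ≤ 2 * cs G v + dg G v ^ 2 + 2 * tv G v ∧
      cs G v + dg G v + 4 ≤ 2 * Fintype.card V + tv G v := by
  obtain ⟨s, hs⟩ := exists_link G hG hn
  have hd := three_le_dg G hG.1.1 (by omega) v (s v) (hs v)
  obtain ⟨x, hx1, hx2⟩ := chord G v (s v) (hs v)
  refine ⟨hd, by omega, ?_, ?_⟩
  · exact local1 G v x hx1 hx2 (fun W hW => bndA G hG.1 v hd W hW) (fun W hW => bndB G hG.1 v hd W hW)
  · exact local2 G v (fun W hW => bndB G hG.1 v hd W hW)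

theorem sum4 (G : SimpleGraph V) (hG : MaxPlanar G) (hn : 4 ≤ Fintype.card V) :
    ∑ v, ∑ w, cn G v w ^ 2 + 8 * ∑ v, dg G v ≤ 4 * qd G + 12 * ntri G := by
  have h1 : ∑ v, (cq G v + 6 * dg G v) ≤ ∑ v, (2 * cs G v + dg G v ^ 2 + 2 * tv G v) :=
    Finset.sum_le_sum fun v _ => (ma_local G hG hn v).2.2.1
  rw [Finset.sum_add_distrib, Finset.sum_add_distrib, Finset.sum_add_distrib, ← Finset.mul_sum,
    ← Finset.mul_sum, ← Finset.mul_sum, sum_tv] at h1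
  have h2 := sum_sq G
  have h3 := sum_cs G
  have h4 : ∑ v, dg G v ^ 2 = qd G := rfl
  omega

theorem sumq (G : SimpleGraph V) (hG : MaxPlanar G) (hn : 4 ≤ Fintype.card V) :
    qd G + 4 * Fintype.card V ≤ 2 * Fintype.card V ^ 2 + 6 * ntri G := by
  have h1 : ∑ v, (cs G v + dg G v + 4) ≤ ∑ v, (2 * Fintype.card V + tv G v) :=
    Finset.sum_le_sum fun v _ => (ma_local G hG hn v).2.2.2
  rw [Finset.sum_add_distrib, Finset.sum_add_distrib, Finset.sum_add_distrib, Finset.sum_const, Finset.sum_const,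
    Finset.card_univ, smul_eq_mul, smul_eq_mul, sum_tv] at h1
  have h3 := sum_cs G
  have h4 : Fintype.card V * (2 * Fintype.card V) = 2 * Fintype.card V ^ 2 := by ring
  omega

theorem two_le (G : SimpleGraph V) (hG : MaxPlanar G) (hn : 4 ≤ Fintype.card V) :
    2 * Fintype.card V ≤ ntri G + 4 := by
  have h1 : ∑ v, 2 * dg G v ≤ ∑ v, tv G v :=
    Finset.sum_le_sum fun v _ => (ma_local G hG hn v).2.1
  rw [← Finset.mul_sum, sum_tv, sum_dg] at h1
  have := hG.2.2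
  omega

private theorem ma_dg (G : SimpleGraph V) (hG : MaxPlanar G) :
    ((∑ v, dg G v : ℕ) : ℝ) = 6 * ((Fintype.card V : ℝ) - 2) := by
  have h1 := sum_dg G
  have h2 := hG.2.2
  have h3 : ∑ v, dg G v + 12 = 6 * Fintype.card V := by omega
  have h4 : ((∑ v, dg G v : ℕ) : ℝ) + 12 = 6 * (Fintype.card V : ℝ) := by exact_mod_cast h3
  linarith

theorem main_ineq (G : SimpleGraph V) (hG : MaxPlanar G) (hn : 4 ≤ Fintype.card V) :
    36 * ((ntri G : ℝ) + 6 * ((Fintype.card V : ℝ) - 2)) ^ 2 ≤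
      sPos G * (4 * (qd G : ℝ) + 84 * (ntri G : ℝ) + 357 * ((Fintype.card V : ℝ) - 2) + 162) := by
  have t1 := tr1 G
  have t2 := (tr2 G).trans (ma_dg G hG)
  have t3 := tr3 G
  rw [sum_tv] at t3
  push_cast at t3
  have t4 := tr4 G
  have h4 : ((∑ v, ∑ w, cn G v w ^ 2 : ℕ) : ℝ) + 8 * ((∑ v, dg G v : ℕ) : ℝ)
      ≤ 4 * (qd G : ℝ) + 12 * (ntri G : ℝ) := by exact_mod_cast sum4 G hG hn
  rw [ma_dg G hG, ← t4] at h4
  have hn' : (4 : ℝ) ≤ Fintype.card V := by exact_mod_cast hn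
  have ht0 : (0 : ℝ) ≤ ntri G := Nat.cast_nonneg _
  have hs0 : 0 ≤ sPos G := Finset.sum_nonneg fun i _ => sq_nonneg _
  have key := spec G 3 (by rw [t1, t2, t3]; nlinarith)
  rw [t1, t2, t3] at key
  have h5 : (adjM G ^ 4).trace + 4 * 3 * (6 * (ntri G : ℝ)) + 6 * 3 ^ 2 * (6 * ((Fintype.card V : ℝ) - 2))
      + 4 * 3 ^ 3 * 0 + 3 ^ 4 * (Fintype.card V : ℝ)
      ≤ 4 * (qd G : ℝ) + 84 * (ntri G : ℝ) + 357 * ((Fintype.card V : ℝ) - 2) + 162 := by linarith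
  have h6 := mul_le_mul_of_nonneg_left h5 hs0
  refine le_trans (le_of_eq ?_) (key.trans h6)
  ring

/-- the two inequalities of Q1 are equivalent -/
theorem q1_iff (G : SimpleGraph V) (hG : MaxPlanar G) (h : 3 * ((Fintype.card V : ℝ) - 2) ≤ sPos G) :
    sNeg G ≤ 3 * ((Fintype.card V : ℝ) - 2) := by
  have h1 := pos_add_neg G
  rw [tr2, ma_dg G hG] at h1
  linarith

/-- Q1 under the degree condition -/
theorem q1_of (G : SimpleGraph V) (hG : MaxPlanar G) (hn : 4 ≤ Fintype.card V)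
    (hc : 4 * (qd G : ℝ) ≤ 243 * ((Fintype.card V : ℝ) - 2)
      + 108 * ((ntri G : ℝ) - 2 * ((Fintype.card V : ℝ) - 2)) - 162) :
    3 * ((Fintype.card V : ℝ) - 2) ≤ sPos G := by
  have hn' : (4 : ℝ) ≤ Fintype.card V := by exact_mod_cast hn
  have h1 : 2 * (Fintype.card V : ℝ) ≤ ntri G + 4 := by exact_mod_cast two_le G hG hn
  exact num_a ((Fintype.card V : ℝ) - 2) (ntri G) (qd G) (sPos G) (by linarith) (by linarith)
    (Nat.cast_nonneg _) (main_ineq G hG hn) hc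

private theorem ma_three (G : SimpleGraph V) (hG : MaxPlanar G) (hn : ¬ 4 ≤ Fintype.card V) :
    3 * ((Fintype.card V : ℝ) - 2) ≤ sPos G := by
  have h3 : Fintype.card V = 3 := by have := hG.2.1; omega
  have := kthree G h3 (by have := hG.2.2; omega)
  rw [h3]
  norm_num
  linarith

/-- Q1 for maximum degree at most 14 -/
theorem q1_deg (G : SimpleGraph V) (hG : MaxPlanar G) (hD : ∀ v, dg G v ≤ 14) :
    3 * ((Fintype.card V : ℝ) - 2) ≤ sPos G := by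
  by_cases hn : 4 ≤ Fintype.card V
  · have h1 := num_b G 14 (fun v => (ma_local G hG hn v).1) hD
    have h2 : (qd G : ℝ) + 3 * 14 * (Fintype.card V : ℝ) ≤ (14 + 3) * ((∑ v, dg G v : ℕ) : ℝ) := by
      exact_mod_cast h1
    rw [ma_dg G hG] at h2
    have hn' : (4 : ℝ) ≤ Fintype.card V := by exact_mod_cast hn
    have h3 : 2 * (Fintype.card V : ℝ) ≤ ntri G + 4 := by exact_mod_cast two_le G hG hn
    exact q1_of G hG hn (by linarith)
  · exact ma_three G hG hn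

/-- Q1 for at most 23 vertices -/
theorem q1_small (G : SimpleGraph V) (hG : MaxPlanar G) (hn : Fintype.card V ≤ 23) :
    3 * ((Fintype.card V : ℝ) - 2) ≤ sPos G := by
  by_cases h4 : 4 ≤ Fintype.card V
  · have h1 : (qd G : ℝ) + 4 * (Fintype.card V : ℝ) ≤ 2 * (Fintype.card V : ℝ) ^ 2 + 6 * (ntri G : ℝ) := by
      exact_mod_cast sumq G hG h4
    have hn' : (4 : ℝ) ≤ Fintype.card V := by exact_mod_cast h4
    have hn23 : (Fintype.card V : ℝ) ≤ 23 := by exact_mod_cast hn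
    have h3 : 2 * (Fintype.card V : ℝ) ≤ ntri G + 4 := by exact_mod_cast two_le G hG h4
    refine q1_of G hG h4 ?_
    nlinarith [mul_nonneg (sub_nonneg.2 hn') (sub_nonneg.2 hn23)]
  · exact ma_three G hG h4

end Pool.Agent.Work.MP_c36330_co.SQ
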