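import Pool.Agent.Work.MP_c36330_co.SQ.Defs
import Pool.Agent.Work.MP_85d607_co.Bridge
import Pool.Agent.Work.MP_85d607_co.Mono
import Pool.Agent.Work.MP_85d607_co.Count
import Pool.Agent.Work.MP_85d607_co.Euler

set_option autoImplicit false

/-!
# SQ/Sub (M): edge bounds for subgraphs of a planar graph

`G` planar gives `Hopper.Embeds G 0`: take the rotation `R` of `SpherePlanar`; `Hopper.ncomps G = 1` (`ncomps_le_one`,
`ncomps_pos` in MP_85d607_co/Count.lean; `G` is connected and has an edge because `H` has one) and `Hopper.nverts G = card V`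
(every vertex of a connected graph with an edge has a neighbour). Then `Embeds.real`, `Real.mono id`, `Real.embeds` give
`Embeds H 0`: a rotation `R'` of `H` with `2 * ncomps H + nedges H ≤ nverts H + ncyc R'.face`, and `1 ≤ ncomps H`.
Every face of `R'` has length at least 3: `face d ≠ d` (`Hopper.Eul.face1`), and if `face (face d) = d` then
`(face d).fst = d.snd`, `(face d).snd = d.fst` (`face_fst` twice), so `face d = d.symm`, i.e. `next d.symm = d.symm`, and
`next d = face d.symm = face (face d) = d`: by `R'.cyclic` both ends of `d` have degree 1, against `hni`. If `H` is bipartite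
(`col`) then also `face^3 d ≠ d` by the colours (`(face d).fst = d.snd`). So `3 * ncyc R'.face ≤ card Dart = 2 nedges H`
resp. `4 * ncyc R'.face ≤ 2 nedges H` (`three_ncyc_le` in MP_5ce8c0_co/FH/Triang.lean can be copied; for 4 use `Fin 4`; or `Hopper.Eul.sum_le` and
`Hopper.Eul.four`). `nverts H ≤ U.card`, and the number of ordered adjacent pairs is `2 nedges H` (`two_nedges_eq` or a bijection with darts).
With `E = nedges H`: `2 + E ≤ U + F`, `3 F ≤ 2 E` give `E + 6 ≤ 3 U`; `4 F ≤ 2 E` gives `E + 4 ≤ 2 U`.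
-/

namespace Pool.Agent.Work.MP_c36330_co.SQ

open Classical

variable {V : Type} [Fintype V]

private theorem emb (G H : SimpleGraph V) (hG : SpherePlanar G) (hH : H ≤ G) (hne : ∃ a b, H.Adj a b) :
    ∃ R : Hopper.Rotation H, 2 + Hopper.nedges H ≤ Hopper.nverts H + Hopper.ncyc R.face := by
  obtain ⟨hc, R, hR⟩ := hG
  obtain ⟨a, b, hab⟩ := hne
  have h1 : Hopper.ncomps G ≤ 1 := Hopper.ncomps_le_one G (fun x y _ _ => hc.preconnected x y)
  have hadjG : G.Adj a b := hH hab
  have hall : ∀ v, ∃ w, G.Adj v w := by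
    intro v
    by_cases hv : v = a
    · exact ⟨b, hv ▸ hadjG⟩
    · obtain ⟨p⟩ := hc.preconnected v a
      cases p with
      | nil => exact absurd rfl hv
      | cons h _ => exact ⟨_, h⟩
  have h2 : Hopper.nverts G = Fintype.card V := by
    rw [Hopper.nverts_eq, Finset.filter_true_of_mem (fun v _ => hall v), Finset.card_univ]
  have hE : Hopper.Embeds G 0 := ⟨R, by omega⟩
  have hH' : Hopper.Embeds H 0 :=
    (Hopper.Real.mono id Function.injective_id (fun x y h => hH h) hE.real).embeds
  obtain ⟨R', hR'⟩ := hH'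
  have := Hopper.ncomps_pos H hab
  exact ⟨R', by omega⟩

private theorem pairs_card (H : SimpleGraph V) :
    (Finset.univ.filter fun p : V × V => H.Adj p.1 p.2).card = 2 * Hopper.nedges H := by
  rw [Hopper.two_nedges_eq, Finset.card_filter, Fintype.sum_prod_type]
  refine Finset.sum_congr rfl fun v _ => ?_
  rw [Finset.card_filter]

private theorem nverts_le (H : SimpleGraph V) (U : Finset V) (hU : ∀ a b, H.Adj a b → a ∈ U) :
    Hopper.nverts H ≤ U.card := by
  rw [Hopper.nverts_eq]
  refine Finset.card_le_card fun v hv => ?_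
  obtain ⟨w, hw⟩ := (Finset.mem_filter.1 hv).2
  exact hU v w hw

private theorem face2s (H : SimpleGraph V) (R : Hopper.Rotation H)
    (hni : ∀ a b, H.Adj a b → (∃ c, c ≠ b ∧ H.Adj a c) ∨ ∃ c, c ≠ a ∧ H.Adj b c) (d : H.Dart) :
    R.face (R.face d) ≠ d := by
  intro h
  have e1 := Hopper.Eul.face_fst R d
  have e2 := Hopper.Eul.face_fst R (R.face d)
  rw [h] at e2
  have e3 : R.face d = d.symm := SimpleGraph.Dart.ext _ _ (Prod.ext e1 e2.symm)
  have e4 : R.next d.symm = d.symm := by
    rw [← Hopper.Eul.face_apply]; exact e3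
  have e5 : R.next d = d := by
    have h' := h
    rw [e3, Hopper.Eul.face_apply, SimpleGraph.Dart.symm_symm] at h'
    exact h'
  rcases hni d.fst d.snd d.adj with ⟨c, hc, hadj⟩ | ⟨c, hc, hadj⟩
  · let e : H.Dart := ⟨(d.fst, c), hadj⟩
    have hs := R.cyclic d e rfl
    have h3 := hs.eq_of_left e5
    have h2 : d.snd = e.snd := by rw [← h3]
    exact hc h2.symm
  · let e : H.Dart := ⟨(d.snd, c), hadj⟩
    have hs := R.cyclic d.symm e rfl
    have h3 := hs.eq_of_left e4
    have h2 : d.symm.snd = e.snd := by rw [← h3]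
    exact hc h2.symm

private theorem three_le {D : Type} [Fintype D] (π : Equiv.Perm D) (h1 : ∀ y, π y ≠ y)
    (h2 : ∀ y, π (π y) ≠ y) : 3 * Hopper.ncyc π ≤ Nat.card D := by
  have : Fintype (Quotient (Equiv.Perm.SameCycle.setoid π)) := Fintype.ofFinite _
  have key := Hopper.Eul.sum_le π (fun _ => 3) (fun d => ⟨{d, π d, π (π d)}, by
      rw [Finset.card_insert_of_notMem, Finset.card_insert_of_notMem, Finset.card_singleton]
      · rw [Finset.mem_singleton]
        exact fun h => h1 d (π.injective h.symm)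
      · rw [Finset.mem_insert, Finset.mem_singleton]
        rintro (h | h)
        · exact h1 d h.symm
        · exact h2 d h.symm, by
      intro e he
      rw [Finset.mem_insert, Finset.mem_insert, Finset.mem_singleton] at he
      rcases he with rfl | rfl | rfl
      · exact Equiv.Perm.SameCycle.refl _ _
      · exact ⟨1, by simp⟩
      · exact ⟨2, by simp [zpow_ofNat, pow_succ]⟩⟩)
  rw [Finset.sum_const, Finset.card_univ, smul_eq_mul, mul_comm] at key
  rw [Hopper.ncyc, Nat.card_eq_fintype_card]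
  exact key

theorem sub3 (G H : SimpleGraph V) (hG : SpherePlanar G) (hH : H ≤ G) (U : Finset V)
    (hU : ∀ a b, H.Adj a b → a ∈ U) (hne : ∃ a b, H.Adj a b)
    (hni : ∀ a b, H.Adj a b → (∃ c, c ≠ b ∧ H.Adj a c) ∨ ∃ c, c ≠ a ∧ H.Adj b c) :
    (Finset.univ.filter fun p : V × V => H.Adj p.1 p.2).card + 12 ≤ 6 * U.card := by
  obtain ⟨R, hR⟩ := emb G H hG hH hne
  have h1 := three_le R.face (Hopper.Eul.face1 R) (face2s H R hni)
  rw [Hopper.Eul.card_dart] at h1
  have h2 := nverts_le H U hU
  rw [pairs_card]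
  omega

theorem sub4 (G H : SimpleGraph V) (hG : SpherePlanar G) (hH : H ≤ G) (U : Finset V)
    (hU : ∀ a b, H.Adj a b → a ∈ U) (hne : ∃ a b, H.Adj a b)
    (hni : ∀ a b, H.Adj a b → (∃ c, c ≠ b ∧ H.Adj a c) ∨ ∃ c, c ≠ a ∧ H.Adj b c)
    (col : V → Prop) (hcol : ∀ a b, H.Adj a b → (col a ↔ ¬ col b)) :
    (Finset.univ.filter fun p : V × V => H.Adj p.1 p.2).card + 8 ≤ 4 * U.card := by
  obtain ⟨R, hR⟩ := emb G H hG hH hne
  have h3 : ∀ d, R.face (R.face (R.face d)) ≠ d := by
    intro d he
    have e1 := Hopper.Eul.face_fst R d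
    have e2 := Hopper.Eul.face_fst R (R.face d)
    have e3 := Hopper.Eul.face_fst R (R.face (R.face d))
    rw [he] at e3
    have c1 := hcol _ _ d.adj
    have c2 := hcol _ _ (R.face d).adj
    have c3 := hcol _ _ (R.face (R.face d)).adj
    rw [e1] at c2
    rw [e2] at c3
    rw [← e3] at c3
    tauto
  have h1 : 4 * Hopper.ncyc R.face ≤ 2 * Hopper.nedges H := by
    have : Fintype (Quotient (Equiv.Perm.SameCycle.setoid R.face)) := Fintype.ofFinite _
    have key := Hopper.Eul.sum_le R.face (fun _ => 4) (fun d =>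
      Hopper.Eul.four R.face d (Hopper.Eul.face1 R d) (face2s H R hni d) (h3 d))
    rw [Hopper.Eul.card_dart] at key
    rw [Finset.sum_const, Finset.card_univ, smul_eq_mul, mul_comm] at key
    rw [Hopper.ncyc, Nat.card_eq_fintype_card]
    exact key
  have h2 := nverts_le H U hU
  rw [pairs_card]
  omega

end Pool.Agent.Work.MP_c36330_co.SQ
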