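import Pool.Agent.Work.MP_c36330_co.SQ.Defs

set_option autoImplicit false

/-!
# SQ/SumSq (S-M): sum of the squares of the degrees

For an edge `v w` of a graph with `m` edges `dg v + dg w ≤ m + 1` (the edges at `v` and the edges at `w` share only the edge `v w`): count ordered
adjacent pairs `(a, b)`: there are `2 m`, those with `a ∈ {v, w}` are `dg v + dg w`, those with `b ∈ {v, w}` are as many, both hold only
for `(v, w), (w, v)`; so `2 (dg v + dg w) - 2 ≤ 2 m`. Then `∑_v (dg v)^2 = ∑_{(v, w) adjacent} dg v`, and by symmetry
`2 ∑_v (dg v)^2 = ∑_{(v, w) adjacent} (dg v + dg w) ≤ 2 m (m + 1)`.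
-/

namespace Pool.Agent.Work.MP_c36330_co.SQ

open Classical

variable {V : Type} [Fintype V]

private theorem ss_card (K : SimpleGraph V) (v : V) : ∑ x, (if K.Adj v x then 1 else 0) = dg K v := by
  rw [dg, Finset.card_filter]

private theorem ss_card' (K : SimpleGraph V) (v : V) : ∑ x, (if K.Adj x v then 1 else 0) = dg K v := by
  rw [← ss_card]
  exact Finset.sum_congr rfl fun x _ => by rw [K.adj_comm]

private theorem ss_edge (K : SimpleGraph V) (m : ℕ) (hm : ∑ v, dg K v = 2 * m) (v w : V) (h : K.Adj v w) :
    dg K v + dg K w ≤ m + 1 := by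
  have hpos : ∀ a b, K.Adj a b → 1 ≤ dg K a := by
    intro a b hab
    exact Finset.card_pos.2 ⟨b, Finset.mem_filter.2 ⟨Finset.mem_univ _, hab⟩⟩
  have h1 := hpos v w h
  have h2 := hpos w v h.symm
  have key : ∀ x ∈ (Finset.univ : Finset V), (if K.Adj x v then 1 else 0) + (if K.Adj x w then 1 else 0)
      + (if x = v then dg K v - 1 else 0) + (if x = w then dg K w - 1 else 0) ≤ dg K x := by
    intro x _
    by_cases hv : x = v
    · subst hv
      rw [if_neg K.irrefl, if_pos h, if_pos rfl, if_neg h.ne]
      omega
    · by_cases hw : x = w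
      · subst hw
        rw [if_pos h.symm, if_neg K.irrefl, if_neg hv, if_pos rfl]
        omega
      · rw [if_neg hv, if_neg hw]
        have hsub : (if K.Adj x v then ({v} : Finset V) else ∅) ∪ (if K.Adj x w then ({w} : Finset V) else ∅)
            ⊆ Finset.univ.filter fun u => K.Adj x u := by
          intro u hu
          rw [Finset.mem_union] at hu
          rw [Finset.mem_filter]
          refine ⟨Finset.mem_univ _, ?_⟩
          rcases hu with hu | hu
          · split_ifs at hu with hx
            · rw [Finset.mem_singleton] at hu; rw [hu]; exact hx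
            · exact absurd hu (Finset.notMem_empty _)
          · split_ifs at hu with hx
            · rw [Finset.mem_singleton] at hu; rw [hu]; exact hx
            · exact absurd hu (Finset.notMem_empty _)
        have hle := Finset.card_le_card hsub
        rw [Finset.card_union_of_disjoint] at hle
        · refine le_trans (le_of_eq ?_) hle
          split_ifs <;> simp
        · rw [Finset.disjoint_left]
          intro u hu hu'
          split_ifs at hu hu' with hx hy
          · rw [Finset.mem_singleton] at hu hu'
            exact h.ne (hu.symm.trans hu')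
          · exact absurd hu' (Finset.notMem_empty _)
          · exact absurd hu (Finset.notMem_empty _)
          · exact absurd hu (Finset.notMem_empty _)
  have hs := Finset.sum_le_sum key
  rw [Finset.sum_add_distrib, Finset.sum_add_distrib, Finset.sum_add_distrib, ss_card', ss_card', hm,
    Finset.sum_ite_eq' Finset.univ v (fun _ => dg K v - 1),
    Finset.sum_ite_eq' Finset.univ w (fun _ => dg K w - 1), if_pos (Finset.mem_univ _),
    if_pos (Finset.mem_univ _)] at hs
  omega

theorem sum_sq_le (K : SimpleGraph V) (m : ℕ) (hm : ∑ v, dg K v = 2 * m) : ∑ v, dg K v ^ 2 ≤ m * (m + 1) := by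
  have e1 : ∑ v, ∑ w, (if K.Adj v w then dg K v else 0) = ∑ v, dg K v ^ 2 := by
    refine Finset.sum_congr rfl fun v _ => ?_
    have : ∀ w, (if K.Adj v w then dg K v else 0) = (if K.Adj v w then 1 else 0) * dg K v := by
      intro w; split_ifs <;> simp
    rw [Finset.sum_congr rfl fun w _ => this w, ← Finset.sum_mul, ss_card, pow_two]
  have e2 : ∑ v, ∑ w, (if K.Adj v w then dg K w else 0) = ∑ v, dg K v ^ 2 := by
    rw [Finset.sum_comm, ← e1]
    refine Finset.sum_congr rfl fun v _ => Finset.sum_congr rfl fun w _ => ?_
    rw [K.adj_comm]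
  have e3 : ∑ v, ∑ w, (if K.Adj v w then (m + 1) else 0) = 2 * m * (m + 1) := by
    rw [← hm, Finset.sum_mul]
    refine Finset.sum_congr rfl fun v _ => ?_
    have : ∀ w, (if K.Adj v w then (m + 1) else 0) = (if K.Adj v w then 1 else 0) * (m + 1) := by
      intro w; split_ifs <;> simp
    rw [Finset.sum_congr rfl fun w _ => this w, ← Finset.sum_mul, ss_card]
  have e4 : ∑ v, ∑ w, (if K.Adj v w then dg K v else 0) + ∑ v, ∑ w, (if K.Adj v w then dg K w else 0)
      ≤ ∑ v, ∑ w, (if K.Adj v w then (m + 1) else 0) := by
    rw [← Finset.sum_add_distrib]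
    refine Finset.sum_le_sum fun v _ => ?_
    rw [← Finset.sum_add_distrib]
    refine Finset.sum_le_sum fun w _ => ?_
    by_cases h : K.Adj v w
    · rw [if_pos h, if_pos h, if_pos h]
      exact ss_edge K m hm v w h
    · rw [if_neg h, if_neg h, if_neg h]
  rw [e1, e2, e3] at e4
  have e5 : 2 * m * (m + 1) = 2 * (m * (m + 1)) := by ring
  omega

end Pool.Agent.Work.MP_c36330_co.SQ
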