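import Pool.Agent.Work.MP_c36330_co.SQ.Defs
import Pool.Agent.Work.MP_85d607_co.Bridge
import Pool.Agent.Work.MP_85d607_co.Count
import Pool.Agent.Work.MP_85d607_co.Euler

set_option autoImplicit false

/-!
# SQ/Tri (M): all faces of a maximal planar graph are triangles

Let `F = ncyc R.face`, `D = card G.Dart = 2 * nedges G` (`Hopper.Eul.card_dart`). `heul` and `hm` give `F = 2 n - 4` and `D = 6 n - 12 = 3 F`.
Every cycle of `R.face` has at least 3 elements: `face d ≠ d` (`Hopper.Eul.face1`); if `face (face d) = d` then
`(face d).fst = d.snd`, `(face d).snd = d.fst`, so `face d = d.symm`, `next d.symm = d.symm` and `next d = face d.symm = d`: both ends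
of `d` have no other neighbour (`R.cyclic`), so by connectedness `V = {d.fst, d.snd}`, against `3 ≤ card V`. Since the
cycles partition the darts and `D = 3 F`, every cycle has exactly 3 elements `d, face d, face (face d)`, so `face^3 d = d`. In Lean: the map
`Quotient × Fin 3 → Dart`, `(q, i) ↦ face^i q.out` is injective (proof of `three_ncyc_le` in MP_5ce8c0_co/FH/Triang.lean), the cardinals
are equal, so it is bijective; if `face^3 d ≠ d` then with `q` the class of `d`, `d = face^i q.out`; the fibre over `q` has the four distinct elements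
`d, face d, face^2 d, face^3 d` (`face^3 d = face^2 d, face d` are excluded by injectivity) but only three by the bijection.
-/

namespace Pool.Agent.Work.MP_c36330_co.SQ

open Classical

variable {V : Type} [Fintype V]

private theorem tri_cube {D : Type} [Fintype D] (π : Equiv.Perm D) (h1 : ∀ y, π y ≠ y)
    (h2 : ∀ y, π (π y) ≠ y) (hc : Nat.card D ≤ 3 * Hopper.ncyc π) (d : D) : π (π (π d)) = d := by
  by_contra h3
  have : Fintype (Quotient (Equiv.Perm.SameCycle.setoid π)) := Fintype.ofFinite _
  let q0 : Quotient (Equiv.Perm.SameCycle.setoid π) := Quotient.mk _ d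
  have key := Hopper.Eul.sum_le π (fun q => 3 + if q = q0 then 1 else 0) (fun e => by
    by_cases he : (Quotient.mk _ e : Quotient (Equiv.Perm.SameCycle.setoid π)) = q0
    · have hs : π.SameCycle e d := Quotient.exact he
      obtain ⟨S, hS, hS2⟩ := Hopper.Eul.four π d (h1 d) (h2 d) h3
      refine ⟨S, ?_, fun x hx => hs.trans (hS2 x hx)⟩
      rw [if_pos he]
      exact hS
    · refine ⟨{e, π e, π (π e)}, ?_, ?_⟩
      · rw [if_neg he, Finset.card_insert_of_notMem, Finset.card_insert_of_notMem,
          Finset.card_singleton]
        · rw [Finset.mem_singleton]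
          exact fun h => h1 e (π.injective h.symm)
        · rw [Finset.mem_insert, Finset.mem_singleton]
          rintro (h | h)
          · exact h1 e h.symm
          · exact h2 e h.symm
      · intro x hx
        rw [Finset.mem_insert, Finset.mem_insert, Finset.mem_singleton] at hx
        rcases hx with rfl | rfl | rfl
        · exact Equiv.Perm.SameCycle.refl _ _
        · exact ⟨1, by simp⟩
        · exact ⟨2, by simp [zpow_ofNat, pow_succ]⟩)
  rw [Finset.sum_add_distrib, Finset.sum_const, Finset.card_univ, smul_eq_mul,
    Finset.sum_ite_eq' Finset.univ q0 (fun _ => 1), if_pos (Finset.mem_univ _)] at key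
  rw [Hopper.ncyc, Nat.card_eq_fintype_card (α := Quotient (Equiv.Perm.SameCycle.setoid π))] at hc
  omega

private theorem tri_closed {V : Type} (G : SimpleGraph V) (hc : G.Connected) (P : V → Prop) (a : V)
    (ha : P a) (hstep : ∀ x y, G.Adj x y → P x → P y) (x : V) : P x := by
  obtain ⟨p⟩ := hc.preconnected a x
  induction p with
  | nil => exact ha
  | cons h _ ih => exact ih (hstep _ _ h ha)

theorem face_cube (G : SimpleGraph V) (hc : G.Connected) (hn : 3 ≤ Fintype.card V) (R : Hopper.Rotation G)
    (heul : Fintype.card V + Hopper.ncyc R.face = Hopper.nedges G + 2)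
    (hm : Hopper.nedges G + 6 = 3 * Fintype.card V) (d : G.Dart) : R.face (R.face (R.face d)) = d := by
  refine tri_cube R.face (Hopper.Eul.face1 R) ?_ ?_ d
  · intro d h
    have e1 := Hopper.Eul.face_fst R d
    have e2 := Hopper.Eul.face_fst R (R.face d)
    rw [h] at e2
    have e3 : R.face d = d.symm := SimpleGraph.Dart.ext _ _ (Prod.ext e1 e2.symm)
    have e4 : R.next d.symm = d.symm := by
      rw [← Hopper.Eul.face_apply]; exact e3
    have e5 : R.next d = d := by
      have h' := h
      rw [e3, Hopper.Eul.face_apply, SimpleGraph.Dart.symm_symm] at h'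
      exact h'
    have hall : ∀ x, x = d.fst ∨ x = d.snd := by
      refine tri_closed G hc (fun x => x = d.fst ∨ x = d.snd) d.fst (Or.inl rfl) ?_
      rintro x y hxy (rfl | rfl)
      · right
        let e : G.Dart := ⟨(d.fst, y), hxy⟩
        have h3 := (R.cyclic d e rfl).eq_of_left e5
        have h2 : d.snd = e.snd := by rw [← h3]
        exact h2.symm
      · left
        let e : G.Dart := ⟨(d.snd, y), hxy⟩
        have h3 := (R.cyclic d.symm e rfl).eq_of_left e4
        have h2 : d.symm.snd = e.snd := by rw [← h3]
        exact h2.symm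
    have hle : Fintype.card V ≤ 2 := by
      rw [← Finset.card_univ]
      refine (Finset.card_le_card (t := {d.fst, d.snd}) fun x _ => ?_).trans Finset.card_le_two
      rw [Finset.mem_insert, Finset.mem_singleton]
      exact hall x
    omega
  · rw [Hopper.Eul.card_dart]
    omega

end Pool.Agent.Work.MP_c36330_co.SQ
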